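import Mathlib

/-!
Matrix amplifications and completely bounded norms for maps on an operator algebra.
-/

namespace Pool.Agent.H912Z.CB

/-- The operator on the Hilbert direct sum of `m` copies of `H` given by the `m × m` operator
matrix `T`: it sends `(u j)` to `(∑ j, T i j (u j))`. -/
noncomputable def amp {H : Type} [NormedAddCommGroup H] [InnerProductSpace ℂ H] (m : ℕ)
    (T : Fin m → Fin m → (H →L[ℂ] H)) :
    PiLp 2 (fun _ : Fin m => H) →L[ℂ] PiLp 2 (fun _ : Fin m => H) :=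
  (PiLp.continuousLinearEquiv 2 ℂ (fun _ : Fin m => H)).symm.toContinuousLinearMap ∘L
    ContinuousLinearMap.pi (fun i => ∑ j, T i j ∘L PiLp.proj 2 (fun _ : Fin m => H) j)

/-- The cb-norm of `φ : A → B(K)` is at most `C`: for every `m` and every `[a i j]` in `M_m(A)`,
the norm of `[φ (a i j)]` is at most `C` times the norm of `[a i j]`. -/
def CbLe {H K : Type} [NormedAddCommGroup H] [InnerProductSpace ℂ H]
    [NormedAddCommGroup K] [InnerProductSpace ℂ K]
    (A : Subalgebra ℂ (H →L[ℂ] H)) (φ : A → (K →L[ℂ] K)) (C : ℝ) : Prop :=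
  ∀ (m : ℕ) (a : Fin m → Fin m → A),
    ‖amp m (fun i j => φ (a i j))‖ ≤ C * ‖amp m (fun i j => (a i j : H →L[ℂ] H))‖

/-- The same with the transposed convention (the other convention in use for antilinear maps):
the norm of `[φ (a j i)]` is at most `C` times the norm of `[a i j]`. -/
def CbLeT {H K : Type} [NormedAddCommGroup H] [InnerProductSpace ℂ H]
    [NormedAddCommGroup K] [InnerProductSpace ℂ K]
    (A : Subalgebra ℂ (H →L[ℂ] H)) (φ : A → (K →L[ℂ] K)) (C : ℝ) : Prop :=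
  ∀ (m : ℕ) (a : Fin m → Fin m → A),
    ‖amp m (fun i j => φ (a j i))‖ ≤ C * ‖amp m (fun i j => (a i j : H →L[ℂ] H))‖

/-- The map `θ_α (f) = (θ f + (θ (α f))^*) / 2`. -/
noncomputable def thetaAlpha {H K : Type} [NormedAddCommGroup H] [InnerProductSpace ℂ H]
    [NormedAddCommGroup K] [InnerProductSpace ℂ K] [CompleteSpace K]
    {A : Subalgebra ℂ (H →L[ℂ] H)} (θ : A → (K →L[ℂ] K)) (α : A → A) (f : A) : K →L[ℂ] K :=
  (1 / 2 : ℂ) • (θ f + ContinuousLinearMap.adjoint (θ (α f)))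

/-- `α : A → A` is unital and a complete contraction, in both conventions. -/
def UnitalCC {H : Type} [NormedAddCommGroup H] [InnerProductSpace ℂ H]
    {A : Subalgebra ℂ (H →L[ℂ] H)} (α : A → A) : Prop :=
  α 1 = 1 ∧ CbLe A (fun f => (α f).1) 1 ∧ CbLeT A (fun f => (α f).1) 1

/-- `α : A → A` is antilinear. -/
def Antilinear {A : Type} [Ring A] [Algebra ℂ A] (α : A → A) : Prop :=
  (∀ f g : A, α (f + g) = α f + α g) ∧ ∀ (c : ℂ) (f : A), α (c • f) = (starRingEnd ℂ c) • α f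

/-- `θ : A → B` is a unital algebra homomorphism. -/
def UnitalHom {A B : Type} [Ring A] [Algebra ℂ A] [Ring B] [Algebra ℂ B] (θ : A → B) : Prop :=
  θ 1 = 1 ∧ (∀ f g : A, θ (f + g) = θ f + θ g) ∧ (∀ (c : ℂ) (f : A), θ (c • f) = c • θ f) ∧
    ∀ f g : A, θ (f * g) = θ f * θ g

/-- There is a counterexample to the conjecture with `A ⊆ B(H)` and `θ : A → B(K)`. -/
def Counter (H K : Type) [NormedAddCommGroup H] [InnerProductSpace ℂ H]
    [NormedAddCommGroup K] [InnerProductSpace ℂ K] [CompleteSpace K] : Prop :=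
  ∃ (A : Subalgebra ℂ (H →L[ℂ] H)) (θ : A → (K →L[ℂ] K)) (α : A → A),
    UnitalHom θ ∧ (∃ C : ℝ, CbLe A θ C) ∧ Antilinear α ∧ UnitalCC α ∧
    CbLe A (thetaAlpha θ α) 1 ∧ ¬ CbLe A θ 2 ∧ ∃ f : A, 2 * ‖f.1‖ < ‖θ f‖

end Pool.Agent.H912Z.CB
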