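import Pool.Agent.H912Z.CBKraus

namespace Pool.Agent.H912Z.CB

open scoped InnerProductSpace ComplexConjugate Matrix

abbrev E (n : ℕ) := EuclideanSpace ℂ (Fin n)
abbrev M (n : ℕ) := Matrix (Fin n) (Fin n) ℂ

/-- the representation `a ↦ [[a, t (a F - F a)], [0, a]]` -/
noncomputable def piM (a : M 2) : M 4 :=
  !![a 0 0, a 0 1, (527/336) * a 0 1, 0;
     a 1 0, a 1 1, (527/336) * (a 1 1 - a 0 0), -(527/336) * a 0 1;
     0, 0, a 0 0, a 0 1;
     0, 0, a 1 0, a 1 1]

noncomputable def piLin : M 2 →ₗ[ℂ] M 4 where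
  toFun := piM
  map_add' a b := by
    ext i j; fin_cases i <;> fin_cases j <;> simp [piM] <;> ring
  map_smul' c a := by
    ext i j; fin_cases i <;> fin_cases j <;> simp [piM] <;> ring

noncomputable def piAlg : M 2 →ₐ[ℂ] M 4 :=
  AlgHom.ofLinearMap piLin
    (by ext i j; fin_cases i <;> fin_cases j <;> simp [piLin, piM])
    (by
      intro a b
      ext i j
      fin_cases i <;> fin_cases j <;>
        simp [piLin, piM, Matrix.mul_apply, Fin.sum_univ_two, Fin.sum_univ_four] <;> ring)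

noncomputable def thM (a : M 2) : M 2 := !![a 0 0, (12/25) * a 0 1; (25/12) * a 1 0, a 1 1]

noncomputable def thLin : M 2 →ₗ[ℂ] M 2 where
  toFun := thM
  map_add' a b := by
    ext i j; fin_cases i <;> fin_cases j <;> simp [thM] <;> ring
  map_smul' c a := by
    ext i j; fin_cases i <;> fin_cases j <;> simp [thM] <;> ring

noncomputable def thAlg : M 2 →ₐ[ℂ] M 2 :=
  AlgHom.ofLinearMap thLin
    (by ext i j; fin_cases i <;> fin_cases j <;> simp [thLin, thM])
    (by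
      intro a b
      ext i j
      fin_cases i <;> fin_cases j <;>
        simp [thLin, thM, Matrix.mul_apply, Fin.sum_univ_two] <;> ring)

noncomputable def alM (a : M 2) : M 2 :=
  !![conj (a 0 0), -(49/144) * conj (a 1 0); (337/1250) * conj (a 0 1), conj (a 0 0)]

noncomputable def alLin : M 2 →ₛₗ[starRingEnd ℂ] M 2 where
  toFun := alM
  map_add' a b := by
    ext i j; fin_cases i <;> fin_cases j <;> simp [alM] <;> ring
  map_smul' c a := by
    ext i j; fin_cases i <;> fin_cases j <;> simp [alM] <;> ring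

noncomputable def op (n : ℕ) : M n →ₐ[ℂ] (E n →L[ℂ] E n) :=
  (Matrix.toEuclideanCLM (n := Fin n) (𝕜 := ℂ)).toAlgEquiv.toAlgHom

lemma op_apply (n : ℕ) (a : M n) (u : E n) (i : Fin n) : op n a u i = ∑ j, a i j * u j := by
  show (Matrix.toEuclideanCLM (n := Fin n) (𝕜 := ℂ) a u) i = _
  rw [Matrix.ofLp_toEuclideanCLM]
  rfl

lemma op_star (n : ℕ) (a : M n) : star (op n a) = op n (star a) :=
  (map_star (Matrix.toEuclideanCLM (n := Fin n) (𝕜 := ℂ)) a).symm

lemma inner_op (n : ℕ) (a : M n) (u v : E n) :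
    ⟪v, op n a u⟫_ℂ = ∑ i, ∑ j, conj (v i) * a i j * u j := by
  simp only [PiLp.inner_apply, op_apply, RCLike.inner_apply, Finset.sum_mul]
  refine Finset.sum_congr rfl fun i _ => Finset.sum_congr rfl fun j _ => by ring

noncomputable def Pi4 : M 2 →ₐ[ℂ] (E 4 →L[ℂ] E 4) := (op 4).comp piAlg

lemma Pi4_inj : Function.Injective Pi4 := by
  intro a b h
  have h1 : piM a = piM b := (Matrix.toEuclideanCLM (n := Fin 4) (𝕜 := ℂ)).injective h
  ext i j
  have h00 := congrFun (congrFun h1 0) 0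
  have h01 := congrFun (congrFun h1 0) 1
  have h10 := congrFun (congrFun h1 1) 0
  have h11 := congrFun (congrFun h1 1) 1
  simp [piM] at h00 h01 h10 h11
  fin_cases i <;> fin_cases j <;> simp [*]

noncomputable def AA : Subalgebra ℂ (E 4 →L[ℂ] E 4) := Pi4.range

noncomputable def eqv : M 2 ≃ₐ[ℂ] AA := AlgEquiv.ofInjective Pi4 Pi4_inj

lemma eqv_coe (a : M 2) : ((eqv a : AA) : E 4 →L[ℂ] E 4) = op 4 (piM a) := rfl

noncomputable def theta : AA →ₐ[ℂ] (E 2 →L[ℂ] E 2) :=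
  ((op 2).comp thAlg).comp eqv.symm.toAlgHom

lemma theta_eqv (a : M 2) : theta (eqv a) = op 2 (thM a) := by
  simp [theta]; rfl

noncomputable def alpha : AA →ₛₗ[starRingEnd ℂ] AA :=
  (eqv.toLinearEquiv.toLinearMap.comp alLin).comp eqv.symm.toLinearEquiv.toLinearMap

lemma alpha_eqv (a : M 2) : alpha (eqv a) = eqv (alM a) := by
  simp [alpha]; rfl

lemma alpha_one : alpha 1 = 1 := by
  have : alM 1 = 1 := by
    ext i j; fin_cases i <;> fin_cases j <;> simp [alM]
  rw [← map_one eqv, alpha_eqv, this]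

lemma normsq (n : ℕ) (u : E n) : ‖u‖ ^ 2 = ∑ i, ((u i).re ^ 2 + (u i).im ^ 2) := by
  rw [EuclideanSpace.norm_sq_eq]
  refine Finset.sum_congr rfl fun i _ => ?_
  rw [Complex.sq_norm, Complex.normSq_apply]; ring

noncomputable def v4 (a b c d : ℂ) : E 4 := WithLp.toLp 2 ![a, b, c, d]

@[simp] lemma v4_0 (a b c d : ℂ) : v4 a b c d 0 = a := rfl
@[simp] lemma v4_1 (a b c d : ℂ) : v4 a b c d 1 = b := rfl
@[simp] lemma v4_2 (a b c d : ℂ) : v4 a b c d 2 = c := rfl
@[simp] lemma v4_3 (a b c d : ℂ) : v4 a b c d 3 = d := rfl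

lemma theta_cb : CbLe AA theta (1 * (25/12)) := by
  refine cbLe_of_kraus (ι := Fin 1) AA theta (fun _ => 1) (fun _ => zero_le_one)
    (fun _ v => v4 ((12/25) * v 0) (v 1) 0 0) (fun _ u => v4 ((25/12) * u 0) (u 1) 0 0) 1 (25/12)
    zero_le_one (by norm_num) ?_ ?_ ?_
  · intro u
    simp only [normsq, Fin.sum_univ_one, Fin.sum_univ_four, Fin.sum_univ_two, v4_0, v4_1, v4_2, v4_3]
    simp
    nlinarith [sq_nonneg (u 0).re, sq_nonneg (u 0).im]
  · intro u
    simp only [normsq, Fin.sum_univ_one, Fin.sum_univ_four, Fin.sum_univ_two, v4_0, v4_1, v4_2, v4_3]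
    simp
    nlinarith [sq_nonneg (u 1).re, sq_nonneg (u 1).im]
  · intro a u v
    obtain ⟨b, rfl⟩ := eqv.surjective a
    rw [theta_eqv, eqv_coe, inner_op]
    simp only [inner_op, Fin.sum_univ_one, Fin.sum_univ_four, Fin.sum_univ_two, v4_0, v4_1, v4_2,
      v4_3]
    simp [thM, piM, map_ofNat]
    ring

lemma theta_alpha_cb :
    CbLe AA (fun f => (1 / 2 : ℂ) • (theta f + star (theta (alpha f)))) (1 * 1) := by
  refine cbLe_of_kraus (ι := Fin 1) AA _ (fun _ => 1) (fun _ => zero_le_one)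
    (fun _ v => v4 (v 0) ((24/25) * v 1) (-(7/25) * v 1) 0)
    (fun _ v => v4 (v 0) ((24/25) * v 1) (-(7/25) * v 1) 0) 1 1
    zero_le_one zero_le_one ?_ ?_ ?_
  · intro u
    simp only [normsq, Fin.sum_univ_one, Fin.sum_univ_four, Fin.sum_univ_two, v4_0, v4_1, v4_2, v4_3]
    simp
    nlinarith
  · intro u
    simp only [normsq, Fin.sum_univ_one, Fin.sum_univ_four, Fin.sum_univ_two, v4_0, v4_1, v4_2, v4_3]
    simp
    nlinarith
  · intro a u v
    obtain ⟨b, rfl⟩ := eqv.surjective a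
    simp only [alpha_eqv, theta_eqv, eqv_coe, op_star, ← map_add, ← map_smul, inner_op]
    simp only [Fin.sum_univ_one, Fin.sum_univ_four, Fin.sum_univ_two, v4_0, v4_1, v4_2, v4_3]
    simp [thM, piM, alM, map_ofNat]
    ring

noncomputable def dN : Fin 8 → ℝ :=
  ![176325833/2276640000, 176325833/2276640000, 176325833/2276640000, 176325833/2276640000,
    56616/329375, 56616/329375, 2734375/3642624, 343/1581]

lemma dN_nonneg (k : Fin 8) : 0 ≤ dN k := by
  fin_cases k <;> simp [dN] <;> norm_num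

noncomputable def LT : Fin 8 → E 4 → E 4 :=
  ![fun z => v4 (z 0) 0 0 0, fun z => v4 (z 1) 0 0 0, fun z => v4 (z 2) 0 0 0,
    fun z => v4 (z 3) 0 0 0, fun z => v4 (z 0) 0 (z 1) 0, fun z => v4 (z 2) 0 (z 3) 0,
    fun z => v4 (z 0) (-(527/336) * ((112896/390625) * (z 1 + (527/336) * z 2)))
      ((112896/390625) * (z 1 + (527/336) * z 2)) 0,
    fun z => v4 (z 2 - (527/336) * z 1) (-(527/336) * z 3) (z 3) 0]

noncomputable def LL : Fin 8 → E 4 → E 4 :=
  ![fun z => v4 (conj (z 0)) 0 0 0, fun z => v4 (conj (z 1)) 0 0 0, fun z => v4 (conj (z 2)) 0 0 0,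
    fun z => v4 (conj (z 3)) 0 0 0, fun z => v4 (conj (z 1)) 0 (conj (z 0)) 0,
    fun z => v4 (conj (z 3)) 0 (conj (z 2)) 0,
    fun z => v4 (conj (z 3)) (-(527/336) * ((112896/390625) * (conj (z 2) - (527/336) * conj (z 1))))
      ((112896/390625) * (conj (z 2) - (527/336) * conj (z 1))) 0,
    fun z => v4 (conj (z 1) + (527/336) * conj (z 2)) (-(527/336) * conj (z 0)) (conj (z 0)) 0]

lemma alpha_cbT : CbLeT AA (fun f => ((alpha f : AA) : E 4 →L[ℂ] E 4)) 1 := by
  refine cbLeT_of_kraus_conj AA _ dN dN_nonneg LT ?_ ?_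
  · intro u
    simp only [normsq, Fin.sum_univ_eight, Fin.sum_univ_four]
    simp [LT, dN]
    nlinarith
  · intro a u v
    obtain ⟨b, rfl⟩ := eqv.surjective a
    simp only [alpha_eqv, eqv_coe, inner_op]
    simp only [Fin.sum_univ_eight, Fin.sum_univ_four]
    simp [LT, dN, piM, alM, map_ofNat]
    ring

lemma alpha_cb : CbLe AA (fun f => ((alpha f : AA) : E 4 →L[ℂ] E 4)) 1 := by
  refine cbLe_of_kraus_conj AA _ dN dN_nonneg LL ?_ ?_
  · intro u
    simp only [normsq, Fin.sum_univ_eight, Fin.sum_univ_four]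
    simp [LL, dN]
    nlinarith
  · intro a u v
    obtain ⟨b, rfl⟩ := eqv.surjective a
    simp only [alpha_eqv, eqv_coe, inner_op]
    simp only [Fin.sum_univ_eight, Fin.sum_univ_four]
    simp [LL, dN, piM, alM, map_ofNat]
    ring

lemma theta_big : ∃ a : AA, 2 * ‖(a : E 4 →L[ℂ] E 4)‖ < ‖theta a‖ := by
  refine ⟨eqv !![0, 0; 1, 0], ?_⟩
  rw [theta_eqv, eqv_coe]
  have h1 : ‖op 4 (piM !![0, 0; 1, 0])‖ ≤ 1 := by
    refine ContinuousLinearMap.opNorm_le_bound _ zero_le_one fun u => ?_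
    rw [one_mul]
    refine pow_le_pow_left₀ (norm_nonneg _) ?_ 1 |> fun h => by simpa using h
    refine abs_le_of_sq_le_sq' ?_ (norm_nonneg _) |>.2
    simp only [normsq, Fin.sum_univ_four, op_apply]
    simp [piM]
    nlinarith [sq_nonneg (u 1).re, sq_nonneg (u 1).im, sq_nonneg (u 3).re, sq_nonneg (u 3).im]
  have h2 : (25 / 12 : ℝ) ≤ ‖op 2 (thM !![0, 0; 1, 0])‖ := by
    have := (op 2 (thM !![0, 0; 1, 0])).le_opNorm (WithLp.toLp 2 ![1, 0])
    have e1 : ‖(WithLp.toLp 2 ![1, 0] : E 2)‖ = 1 := by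
      have : ‖(WithLp.toLp 2 ![1, 0] : E 2)‖ ^ 2 = 1 := by
        simp [normsq, Fin.sum_univ_two]
      exact (pow_eq_one_iff_of_nonneg (norm_nonneg _) two_ne_zero).mp this
    have e2 : ‖op 2 (thM !![0, 0; 1, 0]) (WithLp.toLp 2 ![1, 0])‖ = 25 / 12 := by
      have : ‖op 2 (thM !![0, 0; 1, 0]) (WithLp.toLp 2 ![1, 0])‖ ^ 2 = (25 / 12) ^ 2 := by
        simp only [normsq, Fin.sum_univ_two, op_apply]
        simp [thM]
      exact (pow_left_inj₀ (norm_nonneg _) (by norm_num) two_ne_zero).mp this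
    rw [e1, e2, mul_one] at this
    exact this
  linarith

lemma amp_one {H : Type} [NormedAddCommGroup H] [InnerProductSpace ℂ H] (T : H →L[ℂ] H) :
    ‖amp 1 (fun _ _ => T)‖ = ‖T‖ := by
  apply le_antisymm
  · refine norm_le_of_inner _ _ (norm_nonneg _) fun u v => ?_
    rw [inner_amp]
    simp only [Fin.sum_univ_one]
    have h1 : ‖v 0‖ ≤ ‖v‖ := PiLp.norm_apply_le v 0
    have h2 : ‖u 0‖ ≤ ‖u‖ := PiLp.norm_apply_le u 0
    calc _ ≤ ‖v 0‖ * ‖T (u 0)‖ := norm_inner_le_norm _ _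
      _ ≤ ‖v‖ * (‖T‖ * ‖u‖) := by
        refine mul_le_mul h1 ((T.le_opNorm _).trans ?_) (norm_nonneg _) (norm_nonneg _)
        exact mul_le_mul_of_nonneg_left h2 (norm_nonneg _)
      _ = _ := by ring
  · refine ContinuousLinearMap.opNorm_le_bound _ (ContinuousLinearMap.opNorm_nonneg _) fun u => ?_
    let U : PiLp 2 (fun _ : Fin 1 => H) := WithLp.toLp 2 (fun _ => u)
    have hU : ‖U‖ = ‖u‖ := by
      have : ‖U‖ ^ 2 = ‖u‖ ^ 2 := by
        rw [PiLp.norm_sq_eq_of_L2]; simp [U]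
      exact (pow_left_inj₀ (norm_nonneg _) (norm_nonneg _) two_ne_zero).mp this
    have h1 : T u = amp 1 (fun _ _ => T) U 0 := by
      rw [amp_apply]; simp [U]
    rw [h1, ← hU]
    exact (PiLp.norm_apply_le _ 0).trans ((amp 1 (fun _ _ => T)).le_opNorm U)

lemma theta_not : ¬ CbLe AA theta 2 := by
  intro h
  obtain ⟨a, ha⟩ := theta_big
  have := h 1 (fun _ _ => a)
  rw [amp_one, amp_one] at this
  linarith

theorem main : Counter (E 4) (E 2) :=
  ⟨AA, theta, alpha, ⟨map_one theta, map_add theta, map_smul theta, map_mul theta⟩, ⟨_, theta_cb⟩,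
    ⟨map_add alpha, fun c f => alpha.map_smulₛₗ c f⟩, ⟨alpha_one, alpha_cb, alpha_cbT⟩,
    by have h := theta_alpha_cb; rw [one_mul] at h; exact h,
    theta_not, theta_big⟩

end Pool.Agent.H912Z.CB
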