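import Pool.Agent.H912Z.CBDefs

set_option linter.unusedSectionVars false

namespace Pool.Agent.H912Z.CB

open scoped InnerProductSpace ComplexConjugate

variable {H K : Type} [NormedAddCommGroup H] [InnerProductSpace ℂ H]
  [NormedAddCommGroup K] [InnerProductSpace ℂ K]

lemma amp_apply (m : ℕ) (T : Fin m → Fin m → (H →L[ℂ] H)) (u : PiLp 2 (fun _ : Fin m => H))
    (i : Fin m) : amp m T u i = ∑ j, T i j (u j) := by
  simp [amp]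

lemma inner_amp (m : ℕ) (T : Fin m → Fin m → (H →L[ℂ] H)) (u v : PiLp 2 (fun _ : Fin m => H)) :
    ⟪v, amp m T u⟫_ℂ = ∑ i, ∑ j, ⟪v i, T i j (u j)⟫_ℂ := by
  simp [PiLp.inner_apply, amp_apply, inner_sum]

/-- componentwise application of a function -/
def lift (m : ℕ) (L : K → H) (u : PiLp 2 (fun _ : Fin m => K)) : PiLp 2 (fun _ : Fin m => H) :=
  WithLp.toLp 2 (fun i => L (u i))

lemma lift_apply (m : ℕ) (L : K → H) (u : PiLp 2 (fun _ : Fin m => K)) (i : Fin m) :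
    lift m L u i = L (u i) := rfl

lemma lift_sq {ι : Type} [Fintype ι] (m : ℕ) (d : ι → ℝ) (L : ι → K → H) (C : ℝ)
    (h : ∀ u, ∑ k, d k * ‖L k u‖ ^ 2 ≤ C ^ 2 * ‖u‖ ^ 2) (u : PiLp 2 (fun _ : Fin m => K)) :
    ∑ k, d k * ‖lift m (L k) u‖ ^ 2 ≤ C ^ 2 * ‖u‖ ^ 2 := by
  simp only [PiLp.norm_sq_eq_of_L2, lift_apply, Finset.mul_sum]
  rw [Finset.sum_comm]
  exact Finset.sum_le_sum fun i _ => h (u i)

lemma cs {ι : Type} [Fintype ι] (d x y : ι → ℝ) (hd : ∀ k, 0 ≤ d k) (a b : ℝ) (ha : 0 ≤ a)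
    (hb : 0 ≤ b) (hx : ∑ k, d k * x k ^ 2 ≤ a ^ 2) (hy : ∑ k, d k * y k ^ 2 ≤ b ^ 2) :
    ∑ k, d k * (x k * y k) ≤ a * b := by
  have h1 : (∑ k, d k * (x k * y k)) ^ 2 ≤ (∑ k, d k * x k ^ 2) * (∑ k, d k * y k ^ 2) := by
    have := Finset.sum_mul_sq_le_sq_mul_sq Finset.univ (fun k => Real.sqrt (d k) * x k)
      (fun k => Real.sqrt (d k) * y k)
    have e1 : ∀ k, Real.sqrt (d k) * x k * (Real.sqrt (d k) * y k) = d k * (x k * y k) := by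
      intro k
      have := Real.mul_self_sqrt (hd k)
      calc _ = (Real.sqrt (d k) * Real.sqrt (d k)) * (x k * y k) := by ring
        _ = _ := by rw [this]
    have e2 : ∀ (z : ι → ℝ) k, (Real.sqrt (d k) * z k) ^ 2 = d k * z k ^ 2 := by
      intro z k
      rw [mul_pow, Real.sq_sqrt (hd k)]
    simpa only [e1, e2] using this
  have hy0 : 0 ≤ ∑ k, d k * y k ^ 2 := Finset.sum_nonneg fun k _ => mul_nonneg (hd k) (sq_nonneg _)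
  have h2 : (∑ k, d k * (x k * y k)) ^ 2 ≤ (a * b) ^ 2 := by
    calc _ ≤ _ := h1
      _ ≤ a ^ 2 * b ^ 2 := mul_le_mul hx hy hy0 (sq_nonneg _)
      _ = _ := by ring
  exact le_trans (le_abs_self _) (abs_le_of_sq_le_sq' h2 (mul_nonneg ha hb) |> abs_le.mpr)

lemma norm_le_of_inner {E : Type} [NormedAddCommGroup E] [InnerProductSpace ℂ E] (W : E →L[ℂ] E)
    (M : ℝ) (hM : 0 ≤ M) (h : ∀ u v, ‖⟪v, W u⟫_ℂ‖ ≤ M * (‖v‖ * ‖u‖)) : ‖W‖ ≤ M := by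
  refine ContinuousLinearMap.opNorm_le_bound _ hM fun u => ?_
  have h1 := h u (W u)
  rw [inner_self_eq_norm_sq_to_K] at h1
  have h2 : ‖W u‖ ^ 2 ≤ M * (‖W u‖ * ‖u‖) := by
    simpa using h1
  rcases (norm_nonneg (W u)).eq_or_lt with h0 | h0
  · rw [← h0]; positivity
  · nlinarith

/-- the basic estimate: weighted sums of compressions -/
lemma kraus_bound {ι : Type} [Fintype ι] (m : ℕ) (d : ι → ℝ) (hd : ∀ k, 0 ≤ d k)
    (L L' : ι → K → H) (C C' : ℝ) (hC : 0 ≤ C) (hC' : 0 ≤ C')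
    (h : ∀ u, ∑ k, d k * ‖L k u‖ ^ 2 ≤ C ^ 2 * ‖u‖ ^ 2)
    (h' : ∀ u, ∑ k, d k * ‖L' k u‖ ^ 2 ≤ C' ^ 2 * ‖u‖ ^ 2)
    (Z : Fin m → Fin m → (H →L[ℂ] H)) (u v : PiLp 2 (fun _ : Fin m => K)) :
    ‖∑ i, ∑ j, ∑ k, (d k : ℂ) * ⟪L k (v i), Z i j (L' k (u j))⟫_ℂ‖ ≤
      (C * C' * ‖amp m Z‖) * (‖v‖ * ‖u‖) := by
  have e : ∑ i, ∑ j, ∑ k, (d k : ℂ) * ⟪L k (v i), Z i j (L' k (u j))⟫_ℂ =
      ∑ k, (d k : ℂ) * ⟪lift m (L k) v, amp m Z (lift m (L' k) u)⟫_ℂ := by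
    simp only [inner_amp, lift_apply, Finset.mul_sum]
    rw [Finset.sum_congr rfl fun i _ => Finset.sum_comm, Finset.sum_comm]
  rw [e]
  have h1 : ‖∑ k, (d k : ℂ) * ⟪lift m (L k) v, amp m Z (lift m (L' k) u)⟫_ℂ‖ ≤
      ∑ k, ‖amp m Z‖ * (d k * (‖lift m (L k) v‖ * ‖lift m (L' k) u‖)) := by
    refine (norm_sum_le _ _).trans (Finset.sum_le_sum fun k _ => ?_)
    rw [norm_mul, Complex.norm_real, Real.norm_of_nonneg (hd k)]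
    have := (norm_inner_le_norm (𝕜 := ℂ) (lift m (L k) v) (amp m Z (lift m (L' k) u))).trans
      (mul_le_mul_of_nonneg_left ((amp m Z).le_opNorm _) (norm_nonneg _))
    calc _ ≤ d k * (‖lift m (L k) v‖ * (‖amp m Z‖ * ‖lift m (L' k) u‖)) :=
          mul_le_mul_of_nonneg_left this (hd k)
      _ = _ := by ring
  refine h1.trans ?_
  rw [← Finset.mul_sum]
  have h2 := cs d (fun k => ‖lift m (L k) v‖) (fun k => ‖lift m (L' k) u‖) hd (C * ‖v‖) (C' * ‖u‖)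
    (by positivity) (by positivity) (by rw [mul_pow]; exact lift_sq m d L C h v)
    (by rw [mul_pow]; exact lift_sq m d L' C' h' u)
  calc _ ≤ ‖amp m Z‖ * (C * ‖v‖ * (C' * ‖u‖)) := mul_le_mul_of_nonneg_left h2 (ContinuousLinearMap.opNorm_nonneg _)
    _ = _ := by ring

lemma cbLe_of_kraus {ι : Type} [Fintype ι] (A : Subalgebra ℂ (H →L[ℂ] H)) (φ : A → (K →L[ℂ] K))
    (d : ι → ℝ) (hd : ∀ k, 0 ≤ d k) (L L' : ι → K → H) (C C' : ℝ) (hC : 0 ≤ C) (hC' : 0 ≤ C')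
    (h : ∀ u, ∑ k, d k * ‖L k u‖ ^ 2 ≤ C ^ 2 * ‖u‖ ^ 2)
    (h' : ∀ u, ∑ k, d k * ‖L' k u‖ ^ 2 ≤ C' ^ 2 * ‖u‖ ^ 2)
    (hφ : ∀ (a : A) u v, ⟪v, φ a u⟫_ℂ = ∑ k, (d k : ℂ) * ⟪L k v, (a : H →L[ℂ] H) (L' k u)⟫_ℂ) :
    CbLe A φ (C * C') := by
  intro m a
  refine norm_le_of_inner _ _ (by positivity) fun u v => ?_
  rw [inner_amp]
  simp only [hφ]
  exact kraus_bound m d hd L L' C C' hC hC' h h' _ u v

lemma cbLe_of_kraus_conj {ι : Type} [Fintype ι] (A : Subalgebra ℂ (H →L[ℂ] H))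
    (φ : A → (K →L[ℂ] K)) (d : ι → ℝ) (hd : ∀ k, 0 ≤ d k) (L : ι → K → H)
    (h : ∀ u, ∑ k, d k * ‖L k u‖ ^ 2 ≤ 1 ^ 2 * ‖u‖ ^ 2)
    (hφ : ∀ (a : A) u v,
      ⟪v, φ a u⟫_ℂ = conj (∑ k, (d k : ℂ) * ⟪L k v, (a : H →L[ℂ] H) (L k u)⟫_ℂ)) :
    CbLe A φ 1 := by
  intro m a
  refine norm_le_of_inner _ _ (by positivity) fun u v => ?_
  rw [inner_amp]
  simp only [hφ, ← map_sum, RCLike.norm_conj]
  simpa using kraus_bound m d hd L L 1 1 zero_le_one zero_le_one h h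
    (fun i j => (a i j : H →L[ℂ] H)) u v

lemma cbLeT_of_kraus_conj {ι : Type} [Fintype ι] (A : Subalgebra ℂ (H →L[ℂ] H))
    (φ : A → (K →L[ℂ] K)) (d : ι → ℝ) (hd : ∀ k, 0 ≤ d k) (L : ι → K → H)
    (h : ∀ u, ∑ k, d k * ‖L k u‖ ^ 2 ≤ 1 ^ 2 * ‖u‖ ^ 2)
    (hφ : ∀ (a : A) u v,
      ⟪v, φ a u⟫_ℂ = conj (∑ k, (d k : ℂ) * ⟪L k u, (a : H →L[ℂ] H) (L k v)⟫_ℂ)) :
    CbLeT A φ 1 := by
  intro m a
  refine norm_le_of_inner _ _ (by positivity) fun u v => ?_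
  rw [inner_amp]
  simp only [hφ, ← map_sum, RCLike.norm_conj]
  rw [Finset.sum_comm]
  have := kraus_bound m d hd L L 1 1 zero_le_one zero_le_one h h
    (fun i j => (a i j : H →L[ℂ] H)) v u
  rw [mul_comm ‖u‖ ‖v‖] at this
  simpa using this

end Pool.Agent.H912Z.CB
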