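import Mathlib

/-!
Computable structures, their indices, the isomorphism problem of a class, and the levels
`Π⁰₂`, `Π⁰₃`, `Σ⁰₃` of the arithmetical hierarchy.
-/

namespace Pool.Agent.H912Z.IsoP

/-- `p` is `Π⁰₂`. -/
def IsPi2 {α : Type} [Primcodable α] (p : α → Prop) : Prop :=
  ∃ R : α × ℕ × ℕ → Prop, ComputablePred R ∧ ∀ a, p a ↔ ∀ x, ∃ y, R (a, x, y)

/-- `p` is `Π⁰₃`. -/
def IsPi3 {α : Type} [Primcodable α] (p : α → Prop) : Prop :=
  ∃ R : α × ℕ × ℕ × ℕ → Prop, ComputablePred R ∧ ∀ a, p a ↔ ∀ x, ∃ y, ∀ z, R (a, x, y, z)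

/-- `p` is `Σ⁰₃`. -/
def IsSigma3 {α : Type} [Primcodable α] (p : α → Prop) : Prop :=
  ∃ R : α × ℕ × ℕ × ℕ → Prop, ComputablePred R ∧ ∀ a, p a ↔ ∃ x, ∀ y, ∃ z, R (a, x, y, z)

/-- A computable relational language: the relation symbols form a computable set of natural
numbers, and the arity function is computable. -/
structure Lang where
  sym : ℕ → Bool
  ar : ℕ → ℕ
  sym_comp : Computable sym
  ar_comp : Computable ar

/-- A relational structure whose universe `U` is a nonempty set of natural numbers; `R i xs` says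
that the relation symbol `i` holds of the tuple `xs`. Only tuples of elements of `U` of the right
length, and only symbols of the language, matter. -/
structure Str where
  U : Set ℕ
  ne : U.Nonempty
  R : ℕ → List ℕ → Prop

/-- `xs` is a tuple of elements of `A` to which the relation symbol `i` of `L` applies. -/
def Tup (L : Lang) (A : Str) (i : ℕ) (xs : List ℕ) : Prop :=
  L.sym i = true ∧ xs.length = L.ar i ∧ ∀ x ∈ xs, x ∈ A.U

/-- `A` and `B` are isomorphic `L`-structures. -/
def Iso (L : Lang) (A B : Str) : Prop :=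
  ∃ h : ℕ → ℕ, Set.BijOn h A.U B.U ∧ ∀ i xs, Tup L A i xs → (A.R i xs ↔ B.R i (xs.map h))

/-- The atomic diagram of `A`, as a set of natural numbers: the codes `⟨0, x, y⟩` of the true
equations, `⟨1, x, y⟩` of the true inequations, `⟨2, (i, xs)⟩` of the true atomic sentences
`R_i(xs)` and `⟨3, (i, xs)⟩` of the true negated atomic sentences, about elements of `A`. -/
def diagram (L : Lang) (A : Str) : Set ℕ :=
  {m | (∃ x ∈ A.U, m = Nat.pair 0 (Nat.pair x x)) ∨
    (∃ x ∈ A.U, ∃ y ∈ A.U, x ≠ y ∧ m = Nat.pair 1 (Nat.pair x y)) ∨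
    (∃ i xs, Tup L A i xs ∧ A.R i xs ∧ m = Nat.pair 2 (Encodable.encode (i, xs))) ∨
    (∃ i xs, Tup L A i xs ∧ ¬ A.R i xs ∧ m = Nat.pair 3 (Encodable.encode (i, xs)))}

/-- `A` is the structure with index `e`: the `e`-th partial computable function is the
characteristic function of the atomic diagram of `A`. -/
def IsIndex (L : Lang) (e : ℕ) (A : Str) : Prop :=
  ∀ m, (m ∈ diagram L A → (Denumerable.ofNat Nat.Partrec.Code e).eval m = Part.some 1) ∧
    (m ∉ diagram L A → (Denumerable.ofNat Nat.Partrec.Code e).eval m = Part.some 0)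

/-- `I(K)`: `e` is an index of a computable member of `K`. -/
def IndexSet (L : Lang) (K : Str → Prop) (e : ℕ) : Prop :=
  ∃ A, K A ∧ IsIndex L e A

/-- `E(K)`: the pairs of indices of isomorphic computable members of `K`. -/
def IsoProblem (L : Lang) (K : Str → Prop) (p : ℕ × ℕ) : Prop :=
  ∃ A B, K A ∧ K B ∧ IsIndex L p.1 A ∧ IsIndex L p.2 B ∧ Iso L A B

end Pool.Agent.H912Z.IsoP
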