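import Pool.Agent.H912Z.IsoDefs

namespace Pool.Agent.H912Z.IsoP

open Nat.Partrec (Code)
open Nat.Partrec.Code

attribute [fun_prop] Computable

section basic
variable {α β γ : Type} [Primcodable α] [Primcodable β] [Primcodable γ]

@[fun_prop] theorem c_id : Computable (fun a : α => a) := Computable.id
@[fun_prop] theorem c_const (b : β) : Computable (fun _ : α => b) := Computable.const b
@[fun_prop] theorem c_comp {f : β → γ} {g : α → β} (hf : Computable f) (hg : Computable g) :
    Computable (fun a => f (g a)) := hf.comp hg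
@[fun_prop] theorem c_pair {f : α → β} {g : α → γ} (hf : Computable f) (hg : Computable g) :
    Computable (fun a => (f a, g a)) := hf.pair hg
@[fun_prop] theorem c_fst {f : α → β × γ} (hf : Computable f) : Computable (fun a => (f a).1) :=
  Computable.fst.comp hf
@[fun_prop] theorem c_snd {f : α → β × γ} (hf : Computable f) : Computable (fun a => (f a).2) :=
  Computable.snd.comp hf
@[fun_prop] theorem c_add {f g : α → ℕ} (hf : Computable f) (hg : Computable g) :
    Computable (fun a => f a + g a) := Primrec.nat_add.to_comp.comp hf hg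
@[fun_prop] theorem c_sub {f g : α → ℕ} (hf : Computable f) (hg : Computable g) :
    Computable (fun a => f a - g a) := Primrec.nat_sub.to_comp.comp hf hg
@[fun_prop] theorem c_mul {f g : α → ℕ} (hf : Computable f) (hg : Computable g) :
    Computable (fun a => f a * g a) := Primrec.nat_mul.to_comp.comp hf hg
@[fun_prop] theorem c_div {f g : α → ℕ} (hf : Computable f) (hg : Computable g) :
    Computable (fun a => f a / g a) := Primrec.nat_div.to_comp.comp hf hg
@[fun_prop] theorem c_mod {f g : α → ℕ} (hf : Computable f) (hg : Computable g) :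
    Computable (fun a => f a % g a) := Primrec.nat_mod.to_comp.comp hf hg
@[fun_prop] theorem c_unpair {f : α → ℕ} (hf : Computable f) :
    Computable (fun a => (f a).unpair) := Primrec.unpair.to_comp.comp hf
@[fun_prop] theorem c_natPair {f g : α → ℕ} (hf : Computable f) (hg : Computable g) :
    Computable (fun a => Nat.pair (f a) (g a)) := Primrec₂.natPair.to_comp.comp hf hg
@[fun_prop] theorem c_pow {f g : α → ℕ} (hf : Computable f) (hg : Computable g) :
    Computable (fun a => f a ^ g a) :=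
  (Primrec₂.unpaired'.1 Nat.Primrec.pow).to_comp.comp hf hg
@[fun_prop] theorem c_encode {f : α → β} (hf : Computable f) :
    Computable (fun a => Encodable.encode (f a)) := Computable.encode.comp hf
@[fun_prop] theorem c_cons {f : α → β} {g : α → List β} (hf : Computable f) (hg : Computable g) :
    Computable (fun a => f a :: g a) := Computable.list_cons.comp hf hg
@[fun_prop] theorem c_getD {f : α → List ℕ} {g : α → ℕ} (hf : Computable f) (hg : Computable g) :
    Computable (fun a => (f a).getD (g a) 0) := (Primrec.list_getD 0).to_comp.comp hf hg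
@[fun_prop] theorem c_ofNatL {f : α → ℕ} (hf : Computable f) :
    Computable (fun a => Denumerable.ofNat (List ℕ) (f a)) := (Computable.ofNat _).comp hf
@[fun_prop] theorem c_evaln {s e m : α → ℕ} (hs : Computable s) (he : Computable e)
    (hm : Computable m) :
    Computable (fun a => evaln (s a) (Denumerable.ofNat Code (e a)) (m a)) :=
  primrec_evaln.to_comp.comp ((hs.pair ((Computable.ofNat Code).comp he)).pair hm)

theorem cp_comp {p : β → Prop} (hp : ComputablePred p) {f : α → β} (hf : Computable f) :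
    ComputablePred fun a => p (f a) := by
  classical
  exact Computable.computablePred (hp.decide.comp hf)

theorem cp_and {p q : α → Prop} (hp : ComputablePred p) (hq : ComputablePred q) :
    ComputablePred fun a => p a ∧ q a := by
  classical
  refine Computable.computablePred ?_
  exact (Primrec.and.to_comp.comp hp.decide hq.decide).of_eq fun a => by simp

theorem cp_or {p q : α → Prop} (hp : ComputablePred p) (hq : ComputablePred q) :
    ComputablePred fun a => p a ∨ q a :=
  (cp_and hp.not hq.not).not.of_eq fun a => by tauto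

theorem cp_eq {f g : α → β} (hf : Computable f) (hg : Computable g) :
    ComputablePred fun a => f a = g a :=
  cp_comp (p := fun x : β × β => x.1 = x.2) (PrimrecPred.computablePred Primrec.eq) (hf.pair hg)

theorem cp_lt {f g : α → ℕ} (hf : Computable f) (hg : Computable g) :
    ComputablePred fun a => f a < g a :=
  cp_comp (p := fun x : ℕ × ℕ => x.1 < x.2) (PrimrecPred.computablePred Primrec.nat_lt) (hf.pair hg)

theorem cp_le {f g : α → ℕ} (hf : Computable f) (hg : Computable g) :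
    ComputablePred fun a => f a ≤ g a :=
  cp_comp (p := fun x : ℕ × ℕ => x.1 ≤ x.2) (PrimrecPred.computablePred Primrec.nat_le) (hf.pair hg)

theorem cp_ball {g : α → ℕ} (hg : Computable g) {p : α → ℕ → Prop}
    (hp : ComputablePred fun x : α × ℕ => p x.1 x.2) : ComputablePred fun a => ∀ y < g a, p a y := by
  classical
  have hd := hp.decide
  have h1 : Computable fun a => Nat.rec (motive := fun _ => Bool) true
      (fun k acc => acc && decide (p a k)) (g a) := by
    refine Computable.nat_rec hg (Computable.const true)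
      (h := fun a (x : ℕ × Bool) => x.2 && decide (p a x.1)) ?_
    exact Primrec.and.to_comp.comp (Computable.snd.comp Computable.snd)
      (hd.comp (Computable.fst.pair (Computable.fst.comp Computable.snd)))
  refine Computable.computablePred (h1.of_eq fun a => ?_)
  generalize g a = n
  induction n with
  | zero => simp
  | succ n ih =>
    simp only [ih, Nat.forall_lt_succ_right]
    simp

end basic

/-- the levels `Σ⁰_n` -/
def Sg : ℕ → (α : Type) → [Primcodable α] → (α → Prop) → Prop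
  | 0, _, _, p => ComputablePred p
  | n + 1, α, _, p => ∃ q : α × ℕ → Prop, Sg n (α × ℕ) q ∧ ∀ a, p a ↔ ∃ y, ¬ q (a, y)

/-- the levels `Π⁰_n` -/
def Pg (n : ℕ) (α : Type) [Primcodable α] (p : α → Prop) : Prop := Sg n α fun a => ¬ p a

theorem Sg.congr {n : ℕ} {α : Type} [Primcodable α] {p q : α → Prop} (h : Sg n α p)
    (e : ∀ a, p a ↔ q a) : Sg n α q := by
  have : p = q := funext fun a => propext (e a)
  exact this ▸ h

theorem Pg.congr {n : ℕ} {α : Type} [Primcodable α] {p q : α → Prop} (h : Pg n α p)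
    (e : ∀ a, p a ↔ q a) : Pg n α q := Sg.congr h fun a => by rw [e]

theorem Sg.comp : ∀ {n : ℕ} {α β : Type} [Primcodable α] [Primcodable β] {p : β → Prop}
    (_ : Sg n β p) {f : α → β} (_ : Computable f), Sg n α fun a => p (f a)
  | 0, _, _, _, _, _, h, _, hf => cp_comp h hf
  | n + 1, α, β, _, _, _, ⟨q, hq, e⟩, f, hf =>
    ⟨fun x => q (f x.1, x.2), Sg.comp hq (f := fun x : α × ℕ => (f x.1, x.2)) (by fun_prop),
      fun a => e (f a)⟩

theorem Pg.comp {n : ℕ} {α β : Type} [Primcodable α] [Primcodable β] {p : β → Prop}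
    (h : Pg n β p) {f : α → β} (hf : Computable f) : Pg n α fun a => p (f a) := Sg.comp h hf

theorem Sg.not {n : ℕ} {α : Type} [Primcodable α] {p : α → Prop} (h : Sg n α p) :
    Pg n α fun a => ¬ p a := Sg.congr h fun a => by simp

theorem Pg.not {n : ℕ} {α : Type} [Primcodable α] {p : α → Prop} (h : Pg n α p) :
    Sg n α fun a => ¬ p a := h

theorem Pg.up {n : ℕ} {α : Type} [Primcodable α] {p : α → Prop} (h : Pg n α p) :
    Sg (n + 1) α p :=
  ⟨fun x => ¬ p x.1, Sg.comp h (f := fun x : α × ℕ => x.1) (by fun_prop), fun a => by simp⟩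

theorem Sg.upP {n : ℕ} {α : Type} [Primcodable α] {p : α → Prop} (h : Sg n α p) :
    Pg (n + 1) α p := Pg.up h.not

theorem Sg.up : ∀ {n : ℕ} {α : Type} [Primcodable α] {p : α → Prop} (_ : Sg n α p),
    Sg (n + 1) α p
  | 0, _, _, _, h => Pg.up (ComputablePred.not h)
  | _ + 1, _, _, _, ⟨q, hq, e⟩ => ⟨q, Sg.up hq, e⟩

theorem Pg.upP {n : ℕ} {α : Type} [Primcodable α] {p : α → Prop} (h : Pg n α p) :
    Pg (n + 1) α p := Sg.up h

theorem sg_of_cp : ∀ {n : ℕ} {α : Type} [Primcodable α] {p : α → Prop} (_ : ComputablePred p),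
    Sg n α p
  | 0, _, _, _, h => h
  | _ + 1, _, _, _, h => Sg.up (sg_of_cp h)

theorem pg_of_cp {n : ℕ} {α : Type} [Primcodable α] {p : α → Prop} (h : ComputablePred p) :
    Pg n α p := sg_of_cp h.not

theorem sg_and_or : ∀ {n : ℕ} {α : Type} [Primcodable α] {p q : α → Prop} (_ : Sg n α p)
    (_ : Sg n α q), (Sg n α fun a => p a ∧ q a) ∧ Sg n α fun a => p a ∨ q a
  | 0, _, _, _, _, hp, hq => ⟨cp_and hp hq, cp_or hp hq⟩
  | n + 1, α, _, p, q, ⟨p', hp, ep⟩, ⟨q', hq, eq⟩ => by
    constructor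
    · refine ⟨fun x => p' (x.1, x.2.unpair.1) ∨ q' (x.1, x.2.unpair.2),
        (sg_and_or (Sg.comp hp (f := fun x : α × ℕ => (x.1, x.2.unpair.1)) (by fun_prop))
          (Sg.comp hq (f := fun x : α × ℕ => (x.1, x.2.unpair.2)) (by fun_prop))).2, fun a => ?_⟩
      beta_reduce
      rw [ep, eq]
      constructor
      · rintro ⟨⟨y, hy⟩, ⟨z, hz⟩⟩
        exact ⟨Nat.pair y z, by simp [hy, hz]⟩
      · rintro ⟨w, hw⟩
        simp only [not_or] at hw
        exact ⟨⟨_, hw.1⟩, ⟨_, hw.2⟩⟩
    · refine ⟨fun x => p' x ∧ q' x, (sg_and_or hp hq).1, fun a => ?_⟩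
      beta_reduce
      rw [ep, eq]
      constructor
      · rintro (⟨y, hy⟩ | ⟨y, hy⟩)
        · exact ⟨y, fun h => hy h.1⟩
        · exact ⟨y, fun h => hy h.2⟩
      · rintro ⟨w, hw⟩
        rcases not_and_or.mp hw with h | h
        · exact Or.inl ⟨w, h⟩
        · exact Or.inr ⟨w, h⟩

section closure
variable {n : ℕ} {α : Type} [Primcodable α] {p q : α → Prop}

theorem Sg.and (hp : Sg n α p) (hq : Sg n α q) : Sg n α fun a => p a ∧ q a := (sg_and_or hp hq).1
theorem Sg.or (hp : Sg n α p) (hq : Sg n α q) : Sg n α fun a => p a ∨ q a := (sg_and_or hp hq).2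
theorem Pg.and (hp : Pg n α p) (hq : Pg n α q) : Pg n α fun a => p a ∧ q a :=
  (Sg.or hp hq).congr fun a => by tauto
theorem Pg.or (hp : Pg n α p) (hq : Pg n α q) : Pg n α fun a => p a ∨ q a :=
  (Sg.and hp hq).congr fun a => by tauto
theorem Pg.imp (hp : Sg n α p) (hq : Pg n α q) : Pg n α fun a => p a → q a :=
  (Pg.or hp.not hq).congr fun a => by tauto
theorem Sg.imp (hp : Pg n α p) (hq : Sg n α q) : Sg n α fun a => p a → q a :=
  (Sg.or hp.not hq).congr fun a => by tauto
theorem Sg.iffP (hp : Sg n α p) (hq : Sg n α q) : Pg (n + 1) α fun a => p a ↔ q a :=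
  (Pg.and (Pg.imp hp.up hq.upP) (Pg.imp hq.up hp.upP)).congr fun a => by tauto
theorem Sg.iffS (hp : Sg n α p) (hq : Sg n α q) : Sg (n + 1) α fun a => p a ↔ q a :=
  (Sg.and (Sg.imp hp.upP hq.up) (Sg.imp hq.upP hp.up)).congr fun a => by tauto

theorem Sg.ex {r : α → ℕ → Prop} (h : Sg (n + 1) (α × ℕ) fun x => r x.1 x.2) :
    Sg (n + 1) α fun a => ∃ y, r a y := by
  obtain ⟨q, hq, e⟩ := h
  refine ⟨fun x => q ((x.1, x.2.unpair.1), x.2.unpair.2),
    Sg.comp hq (f := fun x : α × ℕ => ((x.1, x.2.unpair.1), x.2.unpair.2)) (by fun_prop),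
    fun a => ?_⟩
  constructor
  · rintro ⟨y, hy⟩
    obtain ⟨z, hz⟩ := (e (a, y)).1 hy
    exact ⟨Nat.pair y z, by simpa using hz⟩
  · rintro ⟨w, hw⟩
    exact ⟨w.unpair.1, (e (a, w.unpair.1)).2 ⟨_, hw⟩⟩

theorem Pg.all {r : α → ℕ → Prop} (h : Pg (n + 1) (α × ℕ) fun x => r x.1 x.2) :
    Pg (n + 1) α fun a => ∀ y, r a y :=
  (Sg.ex (r := fun a y => ¬ r a y) h).congr fun a => by simp

end closure

theorem sg_bounded : ∀ {n : ℕ} {α : Type} [Primcodable α] {r : α → ℕ → Prop} {g : α → ℕ}
    (_ : Computable g) (_ : Sg n (α × ℕ) fun x => r x.1 x.2),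
    (Sg n α fun a => ∀ y < g a, r a y) ∧ Sg n α fun a => ∃ y < g a, r a y
  | 0, _, _, r, _, hg, h => ⟨cp_ball hg h,
      (cp_ball hg (p := fun a y => ¬ r a y) (ComputablePred.not h)).not.of_eq fun a => by simp⟩
  | n + 1, α, _, r, g, hg, h => by
    refine ⟨?_, Sg.ex (r := fun a y => y < g a ∧ r a y)
      (Sg.and (sg_of_cp (cp_lt (by fun_prop) (by fun_prop))) h)⟩
    obtain ⟨q, hq, e⟩ := h
    refine ⟨fun x => ∃ y < g x.1, q ((x.1, y), (Denumerable.ofNat (List ℕ) x.2).getD y 0), ?_,
      fun a => ?_⟩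
    · exact (sg_bounded (α := α × ℕ) (g := fun x => g x.1)
        (r := fun x y => q ((x.1, y), (Denumerable.ofNat (List ℕ) x.2).getD y 0)) (by fun_prop)
        (Sg.comp hq (f := fun z : (α × ℕ) × ℕ =>
          ((z.1.1, z.2), (Denumerable.ofNat (List ℕ) z.1.2).getD z.2 0)) (by fun_prop))).2
    · constructor
      · intro H
        have : ∀ y, ∃ z, y < g a → ¬ q ((a, y), z) := fun y => by
          by_cases hy : y < g a
          · obtain ⟨z, hz⟩ := (e (a, y)).1 (H y hy)
            exact ⟨z, fun _ => hz⟩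
          · exact ⟨0, fun h => absurd h hy⟩
        choose z hz using this
        refine ⟨Encodable.encode ((List.range (g a)).map z), ?_⟩
        rintro ⟨y, hy, hq'⟩
        rw [Denumerable.ofNat_encode] at hq'
        have : ((List.range (g a)).map z).getD y 0 = z y := by
          simp [List.getD_eq_getElem?_getD, hy]
        rw [this] at hq'
        exact hz y hy hq'
      · rintro ⟨w, hw⟩ y hy
        exact (e (a, y)).2 ⟨_, fun h => hw ⟨y, hy, h⟩⟩

section bounded
variable {n : ℕ} {α : Type} [Primcodable α] {r : α → ℕ → Prop} {g : α → ℕ}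

theorem Sg.ball (hg : Computable g) (h : Sg n (α × ℕ) fun x => r x.1 x.2) :
    Sg n α fun a => ∀ y < g a, r a y := (sg_bounded hg h).1
theorem Sg.bex (hg : Computable g) (h : Sg n (α × ℕ) fun x => r x.1 x.2) :
    Sg n α fun a => ∃ y < g a, r a y := (sg_bounded hg h).2
theorem Pg.ball (hg : Computable g) (h : Pg n (α × ℕ) fun x => r x.1 x.2) :
    Pg n α fun a => ∀ y < g a, r a y :=
  (Sg.bex (r := fun a y => ¬ r a y) hg h).congr fun a => by simp
theorem Pg.bex (hg : Computable g) (h : Pg n (α × ℕ) fun x => r x.1 x.2) :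
    Pg n α fun a => ∃ y < g a, r a y :=
  (Sg.ball (r := fun a y => ¬ r a y) hg h).congr fun a => by simp

end bounded

section normal
variable {α : Type} [Primcodable α] {p : α → Prop}

theorem isPi2_iff : IsPi2 p ↔ Pg 2 α p := by
  constructor
  · rintro ⟨R, hR, e⟩
    refine Pg.congr (p := fun a => ∀ x, ∃ y, R (a, x, y)) ?_ fun a => (e a).symm
    refine Pg.all (Sg.upP (Sg.ex (sg_of_cp (cp_comp hR (by fun_prop)))))
  · rintro ⟨q, ⟨R, hR, e2⟩, e1⟩
    refine ⟨fun x => ¬ R ((x.1, x.2.1), x.2.2), (cp_comp hR (by fun_prop)).not, fun a => ?_⟩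
    have := e1 a
    simp only [e2] at this
    constructor
    · intro h x
      by_contra hc
      exact this.2 ⟨x, hc⟩ h
    · intro h
      by_contra hc
      obtain ⟨x, hx⟩ := this.1 hc
      exact hx (h x)

theorem isSigma3_iff : IsSigma3 p ↔ Sg 3 α p := by
  constructor
  · rintro ⟨R, hR, e⟩
    refine Sg.congr (p := fun a => ∃ x, ∀ y, ∃ z, R (a, x, y, z)) ?_ fun a => (e a).symm
    refine Sg.ex (Pg.up (Pg.all (Sg.upP (Sg.ex (sg_of_cp (cp_comp hR (by fun_prop)))))))
  · rintro ⟨q, ⟨q2, ⟨R, hR, e3⟩, e2⟩, e1⟩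
    refine ⟨fun x => ¬ R (((x.1, x.2.1), x.2.2.1), x.2.2.2), (cp_comp hR (by fun_prop)).not,
      fun a => ?_⟩
    rw [e1]
    simp only [e2, e3]
    simp

theorem isPi3_iff : IsPi3 p ↔ Pg 3 α p := by
  unfold Pg
  rw [← isSigma3_iff]
  constructor
  · rintro ⟨R, hR, e⟩
    exact ⟨fun x => ¬ R x, hR.not, fun a => by beta_reduce; rw [e]; simp⟩
  · rintro ⟨R, hR, e⟩
    refine ⟨fun x => ¬ R x, hR.not, fun a => ?_⟩
    have := e a
    beta_reduce at this
    rw [← not_iff_not, this]
    simp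

end normal

/-- `φ_e (m) = v` -/
def Ev (e m v : ℕ) : Prop := v ∈ eval (Denumerable.ofNat Code e) m

theorem sg_ev {α : Type} [Primcodable α] {e m v : α → ℕ} (he : Computable e) (hm : Computable m)
    (hv : Computable v) : Sg 1 α fun a => Ev (e a) (m a) (v a) := by
  refine Sg.congr (p := fun a => ∃ s, evaln s (Denumerable.ofNat Code (e a)) (m a) = some (v a)) ?_
    fun a => ?_
  · exact Sg.ex (sg_of_cp (cp_eq (by fun_prop)
      (Computable.option_some.comp (hv.comp Computable.fst))))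
  · simp [Ev, evaln_complete]

theorem Ev.unique {e m v w : ℕ} (h : Ev e m v) (h' : Ev e m w) : v = w := Part.mem_unique h h'

/-- universal `Σ⁰_{n+1}` predicate -/
def Univ : ℕ → ℕ → ℕ → Prop
  | 0, e, a => Ev e a 1
  | n + 1, e, a => ∃ y, ¬ Univ n e (Nat.pair a y)

theorem sg_univ : ∀ n, Sg (n + 1) (ℕ × ℕ) fun x => Univ n x.1 x.2
  | 0 => sg_ev (by fun_prop) (by fun_prop) (by fun_prop)
  | n + 1 => Sg.ex (r := fun (x : ℕ × ℕ) y => ¬ Univ n x.1 (Nat.pair x.2 y))
      (Pg.up (Sg.not (Sg.comp (sg_univ n)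
        (f := fun z : (ℕ × ℕ) × ℕ => (z.1.1, Nat.pair z.1.2 z.2)) (by fun_prop))))

theorem exists_code_of_partrec {f : ℕ →. ℕ} (hf : Partrec f) :
    ∃ e, eval (Denumerable.ofNat Code e) = f := by
  obtain ⟨c, hc⟩ := exists_code.1 (Partrec.nat_iff.1 hf)
  exact ⟨Encodable.encode c, by simpa using hc⟩

theorem univ_complete : ∀ (n : ℕ) {p : ℕ → Prop}, Sg (n + 1) ℕ p → ∃ e, ∀ a, p a ↔ Univ n e a
  | 0, p, ⟨q, hq, e⟩ => by
    classical
    have hq' : ComputablePred fun x => ¬ q x := ComputablePred.not hq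
    have h1 : Partrec fun a : ℕ => (Nat.rfind fun y => (decide (¬ q (a, y)) : Part Bool)).map
        fun _ => (1 : ℕ) := by
      refine Partrec.map (Partrec.rfind ?_) (Computable.const 1).to₂
      exact (hq'.decide.to₂ (f := fun x : ℕ × ℕ => decide (¬ q x))).partrec₂
    obtain ⟨c, hc⟩ := exists_code_of_partrec h1
    refine ⟨c, fun a => ?_⟩
    simp only [Univ, Ev, hc, e, Part.mem_map_iff, and_true]
    constructor
    · rintro ⟨y, hy⟩
      have := Nat.rfind_min' (p := fun y => decide (¬ q (a, y))) (m := y) (by simpa using hy)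
      obtain ⟨n, hn, _⟩ := this
      exact ⟨n, hn⟩
    · rintro ⟨y, hy⟩
      exact ⟨y, by simpa using Nat.rfind_spec hy⟩
  | n + 1, p, ⟨q, hq, e⟩ => by
    obtain ⟨c, hc⟩ := univ_complete n (Sg.comp hq (f := fun m : ℕ => m.unpair) (by fun_prop))
    refine ⟨c, fun a => ?_⟩
    simp only [Univ, e, ← hc, Nat.unpair_pair]

/-- a `Π⁰₂ ∧ Σ⁰₂` predicate has unique `Π⁰₂` witnesses -/
theorem exists_unique_witness {α : Type} [Primcodable α] {p q : α → Prop} (hp : Pg 2 α p)
    (hq : Sg 2 α q) : ∃ W : α → ℕ → Prop, (Pg 2 (α × ℕ) fun x => W x.1 x.2) ∧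
      (∀ a, (p a ∧ q a) ↔ ∃ u, W a u) ∧ ∀ a u u', W a u → W a u' → u = u' := by
  classical
  obtain ⟨r, hr, e⟩ := hq
  refine ⟨fun a u => p a ∧ ¬ r (a, u) ∧ ∀ v < u, r (a, v), ?_, fun a => ?_, ?_⟩
  · refine Pg.and (hp.comp (by fun_prop)) (Pg.and (Pg.upP (Sg.not hr)) (Sg.upP ?_))
    exact Sg.ball (r := fun (x : α × ℕ) v => r (x.1, v)) (by fun_prop) (hr.comp (by fun_prop))
  · rw [e]
    constructor
    · rintro ⟨h1, h2⟩
      exact ⟨Nat.find h2, h1, Nat.find_spec h2, fun v hv => not_not.1 (Nat.find_min h2 hv)⟩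
    · rintro ⟨u, h1, h2, _⟩
      exact ⟨h1, u, h2⟩
  · rintro a u u' ⟨_, h1, h2⟩ ⟨_, h3, h4⟩
    rcases lt_trichotomy u u' with h | h | h
    · exact absurd (h4 u h) h1
    · exact h
    · exact absurd (h2 u' h) h3

/-- a `Π⁰₂` predicate says that a computable event happens infinitely often -/
theorem exists_inf_often {α : Type} [Primcodable α] {p : α → Prop} (hp : Pg 2 α p) :
    ∃ G : α → ℕ → Prop, (ComputablePred fun x : α × ℕ => G x.1 x.2) ∧
      ∀ a, p a ↔ ∀ s0, ∃ s, s0 ≤ s ∧ G a s := by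
  classical
  obtain ⟨R, hR, e⟩ := isPi2_iff.2 hp
  let F : α → ℕ → ℕ → Prop := fun a m t => ∀ y < m, ∃ z < t, R (a, y, z)
  have hF : ComputablePred fun x : α × ℕ × ℕ => F x.1 x.2.1 x.2.2 := by
    have : Sg 0 (α × ℕ × ℕ) fun x => F x.1 x.2.1 x.2.2 :=
      Sg.ball (r := fun (x : α × ℕ × ℕ) y => ∃ z < x.2.2, R (x.1, y, z)) (by fun_prop)
        (Sg.bex (r := fun (x : (α × ℕ × ℕ) × ℕ) z => R (x.1.1, x.2, z)) (by fun_prop)
          (cp_comp hR (by fun_prop)))
    exact this
  refine ⟨fun a s => F a s.unpair.1 s.unpair.2 ∧ ∀ t < s.unpair.2, ¬ F a s.unpair.1 t, ?_,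
    fun a => ?_⟩
  · refine cp_and (cp_comp hF (f := fun x : α × ℕ => (x.1, x.2.unpair.1, x.2.unpair.2))
      (by fun_prop)) ?_
    exact cp_ball (by fun_prop) (cp_comp hF
      (f := fun x : (α × ℕ) × ℕ => (x.1.1, x.1.2.unpair.1, x.2)) (by fun_prop)).not
  · rw [e]
    constructor
    · intro h s0
      choose z hz using h
      have hex : ∃ t, F a s0 t := by
        refine ⟨(Finset.range s0).sup z + 1, fun y hy => ⟨z y, ?_, hz y⟩⟩
        exact Nat.lt_succ_of_le (Finset.le_sup (f := z) (Finset.mem_range.2 hy))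
      refine ⟨Nat.pair s0 (Nat.find hex), Nat.left_le_pair _ _, ?_⟩
      simp only [Nat.unpair_pair]
      exact ⟨Nat.find_spec hex, fun t ht => Nat.find_min hex ht⟩
    · intro h y
      by_contra hc
      push Not at hc
      have hfin : {s : ℕ | F a s.unpair.1 s.unpair.2 ∧ ∀ t < s.unpair.2, ¬ F a s.unpair.1 t}.Finite := by
        refine Set.Finite.of_finite_image (f := fun s : ℕ => s.unpair.1)
          ((Set.finite_le_nat y).subset ?_) ?_
        · rintro _ ⟨s, ⟨h1, _⟩, rfl⟩
          by_contra hlt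
          obtain ⟨z, _, hz⟩ := h1 y (by simpa using hlt)
          exact hc z hz
        · rintro s ⟨h1, h2⟩ s' ⟨h3, h4⟩ (he : s.unpair.1 = s'.unpair.1)
          have : s.unpair.2 = s'.unpair.2 := by
            rcases lt_trichotomy s.unpair.2 s'.unpair.2 with h | h | h
            · exact absurd (he ▸ h1) (h4 _ h)
            · exact h
            · exact absurd (he ▸ h3) (h2 _ h)
          rw [← Nat.pair_unpair s, ← Nat.pair_unpair s', he, this]
      obtain ⟨b, hb⟩ := hfin.bddAbove
      obtain ⟨s, hs, hG⟩ := h (b + 1)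
      have := hb hG
      omega

end Pool.Agent.H912Z.IsoP
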