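import Pool.Agent.H912Z.IsoStr

namespace Pool.Agent.H912Z.IsoP

open Nat.Partrec (Code)
open Nat.Partrec.Code

def c0 (x : ℕ) : ℕ := Nat.pair 0 (Nat.pair x x)
def c1 (x y : ℕ) : ℕ := Nat.pair 1 (Nat.pair x y)
def c2 (i x : ℕ) : ℕ := Nat.pair 2 (Nat.pair i (Nat.pair x 0 + 1))
def c3 (i x : ℕ) : ℕ := Nat.pair 3 (Nat.pair i (Nat.pair x 0 + 1))

section
variable {α : Type} [Primcodable α] {f g : α → ℕ}
@[fun_prop] lemma c_c0 (hf : Computable f) : Computable fun a => c0 (f a) := by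
  unfold c0; fun_prop
@[fun_prop] lemma c_c1 (hf : Computable f) (hg : Computable g) :
    Computable fun a => c1 (f a) (g a) := by unfold c1; fun_prop
@[fun_prop] lemma c_c2 (hf : Computable f) (hg : Computable g) :
    Computable fun a => c2 (f a) (g a) := by unfold c2; fun_prop
@[fun_prop] lemma c_c3 (hf : Computable f) (hg : Computable g) :
    Computable fun a => c3 (f a) (g a) := by unfold c3; fun_prop
end

lemma enc (i x : ℕ) : Encodable.encode (i, [x]) = Nat.pair i (Nat.pair x 0 + 1) := by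
  simp [Encodable.encode_prod_val, Encodable.encode_list_cons]

/-- the diagram, in terms of the universe and the positive and negative facts -/
def Dg (U : ℕ → Prop) (P N : ℕ → ℕ → Prop) (m : ℕ) : Prop :=
  (∃ x, U x ∧ m = c0 x) ∨ (∃ x y, U x ∧ U y ∧ x ≠ y ∧ m = c1 x y) ∨
    (∃ i x, U x ∧ P i x ∧ m = c2 i x) ∨ (∃ i x, U x ∧ N i x ∧ m = c3 i x)

lemma mem_diagram (A : Str) (m : ℕ) : m ∈ diagram L1 A ↔
    Dg (fun x => x ∈ A.U) (fun i x => A.R i [x]) (fun i x => ¬ A.R i [x]) m := by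
  unfold diagram Dg
  simp only [Set.mem_setOf_eq, tup_iff]
  refine or_congr Iff.rfl (or_congr ?_ (or_congr ?_ ?_))
  · constructor
    · rintro ⟨x, hx, y, hy, h⟩; exact ⟨x, y, hx, hy, h⟩
    · rintro ⟨x, y, hx, hy, h⟩; exact ⟨x, hx, y, hy, h⟩
  · constructor
    · rintro ⟨i, _, ⟨x, hx, rfl⟩, h, rfl⟩; exact ⟨i, x, hx, h, by rw [enc]; rfl⟩
    · rintro ⟨i, x, hx, h, rfl⟩; exact ⟨i, [x], ⟨x, hx, rfl⟩, h, by rw [enc]; rfl⟩
  · constructor
    · rintro ⟨i, _, ⟨x, hx, rfl⟩, h, rfl⟩; exact ⟨i, x, hx, h, by rw [enc]; rfl⟩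
    · rintro ⟨i, x, hx, h, rfl⟩; exact ⟨i, [x], ⟨x, hx, rfl⟩, h, by rw [enc]; rfl⟩

lemma dg_c0 {U : ℕ → Prop} {P N : ℕ → ℕ → Prop} (x : ℕ) : Dg U P N (c0 x) ↔ U x := by
  simp [Dg, c0, c1, c2, c3, Nat.pair_eq_pair]
lemma dg_c2 {U : ℕ → Prop} {P N : ℕ → ℕ → Prop} (i x : ℕ) : Dg U P N (c2 i x) ↔ U x ∧ P i x := by
  simp [Dg, c0, c1, c2, c3, Nat.pair_eq_pair]
lemma dg_c3 {U : ℕ → Prop} {P N : ℕ → ℕ → Prop} (i x : ℕ) : Dg U P N (c3 i x) ↔ U x ∧ N i x := by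
  simp [Dg, c0, c1, c2, c3, Nat.pair_eq_pair]

lemma isIndex_iff {e : ℕ} {A : Str} : IsIndex L1 e A ↔
    ∀ m, (m ∈ diagram L1 A → Ev e m 1) ∧ (m ∉ diagram L1 A → Ev e m 0) := by
  simp only [IsIndex, Ev, Part.eq_some_iff]

lemma IsIndex.one {e : ℕ} {A : Str} (h : IsIndex L1 e A) (m : ℕ) : Ev e m 1 ↔ m ∈ diagram L1 A := by
  refine ⟨fun h1 => ?_, (isIndex_iff.1 h m).1⟩
  by_contra hc
  exact absurd (h1.unique ((isIndex_iff.1 h m).2 hc)) one_ne_zero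

lemma IsIndex.zero {e : ℕ} {A : Str} (h : IsIndex L1 e A) (m : ℕ) :
    Ev e m 0 ↔ m ∉ diagram L1 A := by
  refine ⟨fun h1 hc => ?_, (isIndex_iff.1 h m).2⟩
  exact absurd (((isIndex_iff.1 h m).1 hc).unique h1) one_ne_zero

def InU (e x : ℕ) : Prop := Ev e (c0 x) 1
def RI (e i x : ℕ) : Prop := Ev e (c2 i x) 1
def RO (e i x : ℕ) : Prop := Ev e (c3 i x) 1

lemma IsIndex.inU {e : ℕ} {A : Str} (h : IsIndex L1 e A) : InU e = fun x => x ∈ A.U := by
  ext x; rw [InU, h.one, mem_diagram, dg_c0]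
lemma IsIndex.rI {e : ℕ} {A : Str} (h : IsIndex L1 e A) :
    RI e = fun i x => x ∈ A.U ∧ A.R i [x] := by
  ext i x; rw [RI, h.one, mem_diagram, dg_c2]
lemma IsIndex.rO {e : ℕ} {A : Str} (h : IsIndex L1 e A) :
    RO e = fun i x => x ∈ A.U ∧ ¬ A.R i [x] := by
  ext i x; rw [RO, h.one, mem_diagram, dg_c3]

section
variable {α : Type} [Primcodable α] {e i x : α → ℕ}
lemma sg_inU (he : Computable e) (hx : Computable x) : Sg 1 α fun a => InU (e a) (x a) :=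
  sg_ev he (by fun_prop) (by fun_prop)
lemma sg_rI (he : Computable e) (hi : Computable i) (hx : Computable x) :
    Sg 1 α fun a => RI (e a) (i a) (x a) := sg_ev he (by fun_prop) (by fun_prop)
lemma sg_rO (he : Computable e) (hi : Computable i) (hx : Computable x) :
    Sg 1 α fun a => RO (e a) (i a) (x a) := sg_ev he (by fun_prop) (by fun_prop)
end

/-- `e` is the index of some structure -/
def Good (e : ℕ) : Prop :=
  (∀ m, Ev e m 0 ∨ Ev e m 1) ∧ (∃ x, InU e x) ∧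
    ∀ m, Ev e m 1 ↔ Dg (InU e) (RI e) (fun i x => Ev e (c2 i x) 0) m

lemma dg_congr {U : ℕ → Prop} {P N P' N' : ℕ → ℕ → Prop} (hP : ∀ i x, U x → (P i x ↔ P' i x))
    (hN : ∀ i x, U x → (N i x ↔ N' i x)) (m : ℕ) : Dg U P N m ↔ Dg U P' N' m := by
  unfold Dg
  refine or_congr Iff.rfl (or_congr Iff.rfl (or_congr ?_ ?_))
  · exact exists_congr fun i => exists_congr fun x => and_congr_right fun h => by rw [hP i x h]
  · exact exists_congr fun i => exists_congr fun x => and_congr_right fun h => by rw [hN i x h]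

lemma good_iff (e : ℕ) : Good e ↔ ∃ A, IsIndex L1 e A := by
  constructor
  · rintro ⟨h1, h2, h3⟩
    let A : Str := ⟨{x | InU e x}, h2, fun i xs => RI e i (xs.getD 0 0)⟩
    have key : ∀ m, m ∈ diagram L1 A ↔ Ev e m 1 := fun m => by
      rw [mem_diagram, h3]
      refine dg_congr (fun i x _ => by simp [A]) (fun i x _ => ?_) m
      simp only [A, List.getD_cons_zero, RI]
      exact ⟨fun h => (h1 _).resolve_right h, fun h h' => absurd (h'.unique h) one_ne_zero⟩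
    refine ⟨A, isIndex_iff.2 fun m => ⟨(key m).1, fun h => (h1 m).resolve_right ?_⟩⟩
    rwa [← key]
  · rintro ⟨A, h⟩
    refine ⟨fun m => ?_, ?_, fun m => ?_⟩
    · rw [h.zero, h.one]; exact (em _).symm
    · rw [h.inU]; exact A.ne
    · rw [h.one, mem_diagram, h.inU, h.rI]
      refine dg_congr (fun i x hx => by simp [hx]) (fun i x hx => ?_) m
      rw [h.zero, mem_diagram, dg_c2]
      simp [hx]

lemma pg_good : Pg 2 ℕ Good := by
  unfold Good Dg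
  refine Pg.and (Pg.all (Sg.upP (Sg.or ?_ ?_))) (Pg.and (Sg.upP (Sg.ex ?_)) (Pg.all (Sg.iffP ?_ ?_)))
  · exact sg_ev (by fun_prop) (by fun_prop) (by fun_prop)
  · exact sg_ev (by fun_prop) (by fun_prop) (by fun_prop)
  · exact sg_inU (by fun_prop) (by fun_prop)
  · exact sg_ev (by fun_prop) (by fun_prop) (by fun_prop)
  · refine Sg.or (Sg.ex (Sg.and ?_ ?_)) (Sg.or (Sg.ex (Sg.ex (Sg.and ?_ (Sg.and ?_ (Sg.and ?_ ?_)))))
      (Sg.or (Sg.ex (Sg.ex (Sg.and ?_ (Sg.and ?_ ?_)))) (Sg.ex (Sg.ex (Sg.and ?_ (Sg.and ?_ ?_))))))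
    · exact sg_inU (by fun_prop) (by fun_prop)
    · exact sg_of_cp (cp_eq (by fun_prop) (by fun_prop))
    · exact sg_inU (by fun_prop) (by fun_prop)
    · exact sg_inU (by fun_prop) (by fun_prop)
    · exact sg_of_cp (cp_eq (by fun_prop) (by fun_prop)).not
    · exact sg_of_cp (cp_eq (by fun_prop) (by fun_prop))
    · exact sg_inU (by fun_prop) (by fun_prop)
    · exact sg_rI (by fun_prop) (by fun_prop) (by fun_prop)
    · exact sg_of_cp (cp_eq (by fun_prop) (by fun_prop))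
    · exact sg_inU (by fun_prop) (by fun_prop)
    · exact sg_ev (by fun_prop) (by fun_prop) (by fun_prop)
    · exact sg_of_cp (cp_eq (by fun_prop) (by fun_prop))

def HasI (e n : ℕ) : Prop := ∃ x k, RI e (2 * Nat.pair n k) x
def SurvI (e n k : ℕ) : Prop := ∃ x, RI e (2 * Nat.pair n k) x ∧ ∀ s, ¬ RI e (2 * s + 1) x

lemma IsIndex.hasI {e : ℕ} {A : Str} (h : IsIndex L1 e A) (n : ℕ) : HasI e n ↔ Has A n := by
  unfold HasI Has; rw [h.rI]
lemma IsIndex.survI {e : ℕ} {A : Str} (h : IsIndex L1 e A) (n k : ℕ) :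
    SurvI e n k ↔ Surv A n k := by
  unfold SurvI Surv; rw [h.rI]

section
variable {α : Type} [Primcodable α] {e n k : α → ℕ}
lemma sg_hasI (he : Computable e) (hn : Computable n) : Sg 1 α fun a => HasI (e a) (n a) :=
  Sg.ex (Sg.ex (sg_rI (by fun_prop) (by fun_prop) (by fun_prop)))
lemma sg_survI (he : Computable e) (hn : Computable n) (hk : Computable k) :
    Sg 2 α fun a => SurvI (e a) (n a) (k a) :=
  Sg.ex (Sg.and (Sg.up (sg_rI (by fun_prop) (by fun_prop) (by fun_prop)))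
    (Pg.up (Pg.all (Sg.not (sg_rI (by fun_prop) (by fun_prop) (by fun_prop))))))
end

variable {G : ℕ → ℕ → ℕ → Prop}

lemma IsIndex.blk {e : ℕ} {A : Str} (h : IsIndex L1 e A) (n : ℕ) :
    Blk G n A ↔ Ax G n (InU e) (RI e) (RO e) := by
  rw [blk_iff_ax, h.inU, h.rI, h.rO]

lemma indexSet_iff (e : ℕ) : IndexSet L1 (KK G) e ↔
    Good e ∧ (∃ n, HasI e n) ∧ ∀ n, HasI e n → Ax G n (InU e) (RI e) (RO e) := by
  constructor
  · rintro ⟨A, ⟨n, hn⟩, h⟩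
    refine ⟨(good_iff e).2 ⟨A, h⟩, ⟨n, (h.hasI n).2 ((hn.has_iff n).2 rfl)⟩, fun m hm => ?_⟩
    rw [h.hasI, hn.has_iff] at hm
    subst hm
    exact (h.blk m).1 hn
  · rintro ⟨h1, ⟨n, hn⟩, h3⟩
    obtain ⟨A, h⟩ := (good_iff e).1 h1
    exact ⟨A, ⟨n, (h.blk n).2 (h3 n hn)⟩, h⟩

lemma cpG (hG : ComputablePred fun x : (ℕ × ℕ) × ℕ => G x.1.1 x.1.2 x.2) {α : Type} [Primcodable α]
    {n k s : α → ℕ} (hn : Computable n) (hk : Computable k) (hs : Computable s) :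
    ComputablePred fun a => G (n a) (k a) (s a) :=
  cp_comp hG (f := fun a => ((n a, k a), s a)) (by fun_prop)

lemma pg_ax (hG : ComputablePred fun x : (ℕ × ℕ) × ℕ => G x.1.1 x.1.2 x.2) :
    Pg 2 (ℕ × ℕ) fun x => Ax G x.2 (InU x.1) (RI x.1) (RO x.1) := by
  unfold Ax
  refine Pg.and ?_ (Pg.and ?_ (Pg.and ?_ (Pg.and ?_ (Pg.and ?_ (Pg.and ?_ ?_)))))
  · refine Pg.all (Pg.all (Pg.imp (Sg.up ?_) (Pg.imp (Sg.up ?_) (Sg.upP (Sg.or ?_
      (Sg.ex (Sg.or (Sg.and ?_ ?_) (Sg.and ?_ ?_))))))))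
    · exact sg_inU (by fun_prop) (by fun_prop)
    · exact sg_inU (by fun_prop) (by fun_prop)
    · exact sg_of_cp (cp_eq (by fun_prop) (by fun_prop))
    · exact sg_rI (by fun_prop) (by fun_prop) (by fun_prop)
    · exact sg_rO (by fun_prop) (by fun_prop) (by fun_prop)
    · exact sg_rO (by fun_prop) (by fun_prop) (by fun_prop)
    · exact sg_rI (by fun_prop) (by fun_prop) (by fun_prop)
  · refine Pg.all (Pg.imp (Sg.up ?_) (Sg.upP (Sg.ex ?_)))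
    · exact sg_inU (by fun_prop) (by fun_prop)
    · exact sg_rI (by fun_prop) (by fun_prop) (by fun_prop)
  · refine Pg.all (Pg.all (Pg.all (Pg.imp (Sg.up ?_) (Pg.imp (Sg.up ?_) ?_))))
    · exact sg_rI (by fun_prop) (by fun_prop) (by fun_prop)
    · exact sg_rI (by fun_prop) (by fun_prop) (by fun_prop)
    · exact pg_of_cp (cp_eq (by fun_prop) (by fun_prop))
  · refine Pg.all (Pg.all (Pg.all (Pg.imp (Sg.up ?_) (Pg.imp (Sg.up ?_) ?_))))
    · exact sg_rI (by fun_prop) (by fun_prop) (by fun_prop)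
    · exact sg_rI (by fun_prop) (by fun_prop) (by fun_prop)
    · exact pg_of_cp (cp_eq (by fun_prop) (by fun_prop))
  · refine Pg.all (Pg.all (Pg.all (Pg.imp (Sg.up ?_) (Pg.imp (Sg.up ?_) ?_))))
    · exact sg_rI (by fun_prop) (by fun_prop) (by fun_prop)
    · exact sg_rI (by fun_prop) (by fun_prop) (by fun_prop)
    · exact pg_of_cp (cpG hG (by fun_prop) (by fun_prop) (by fun_prop))
  · refine Pg.all (Pg.all (Pg.imp ?_ (Sg.upP (Sg.ex (Sg.and ?_ ?_)))))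
    · exact sg_of_cp (cpG hG (by fun_prop) (by fun_prop) (by fun_prop))
    · exact sg_rI (by fun_prop) (by fun_prop) (by fun_prop)
    · exact sg_rI (by fun_prop) (by fun_prop) (by fun_prop)
  · refine Pg.all (Pg.all (Sg.upP (Sg.ex (Sg.and ?_ (Sg.ball (by fun_prop) ?_)))))
    · exact sg_rI (by fun_prop) (by fun_prop) (by fun_prop)
    · exact sg_rO (by fun_prop) (by fun_prop) (by fun_prop)

lemma pg_indexSet (hG : ComputablePred fun x : (ℕ × ℕ) × ℕ => G x.1.1 x.1.2 x.2) :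
    Pg 2 ℕ (IndexSet L1 (KK G)) := by
  refine Pg.congr ?_ fun e => (indexSet_iff e).symm
  exact Pg.and pg_good (Pg.and (Sg.upP (Sg.ex (sg_hasI (by fun_prop) (by fun_prop))))
    (Pg.all (Pg.imp (Sg.up (sg_hasI (by fun_prop) (by fun_prop))) (pg_ax hG))))

lemma iso_of_same_index {e : ℕ} {A B : Str} (hA : IsIndex L1 e A) (hB : IsIndex L1 e B) {n : ℕ}
    (h : Blk G n A) : Blk G n B := (hB.blk n).2 ((hA.blk n).1 h)

lemma isoProblem_iff_of {a b n : ℕ} (ha : IndexSet L1 (KK G) a) (hb : IndexSet L1 (KK G) b)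
    (hna : HasI a n) (hnb : HasI b n) :
    IsoProblem L1 (KK G) (a, b) ↔ ∀ k, SurvI a n k ↔ SurvI b n k := by
  obtain ⟨A, ⟨n1, h1⟩, hA⟩ := ha
  obtain ⟨B, ⟨n2, h2⟩, hB⟩ := hb
  rw [hA.hasI, h1.has_iff] at hna
  rw [hB.hasI, h2.has_iff] at hnb
  subst hna hnb
  constructor
  · rintro ⟨A', B', _, _, hA', hB', h⟩ k
    rw [hA'.survI, hB'.survI]
    exact ((iso_of_same_index hA hA' h1).iso_iff (iso_of_same_index hB hB' h2)).1 h k
  · intro h
    refine ⟨A, B, ⟨_, h1⟩, ⟨_, h2⟩, hA, hB, (h1.iso_iff h2).2 fun k => ?_⟩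
    rw [← hA.survI, ← hB.survI]; exact h k

lemma isoProblem_valid {a b : ℕ} (h : IsoProblem L1 (KK G) (a, b)) :
    IndexSet L1 (KK G) a ∧ IndexSet L1 (KK G) b ∧ ∃ n, HasI a n ∧ HasI b n := by
  obtain ⟨A, B, ⟨n, h1⟩, h2, hA, hB, h⟩ := h
  have := (h1.has_iff n).2 rfl
  exact ⟨⟨A, ⟨n, h1⟩, hA⟩, ⟨B, h2, hB⟩, n, (hA.hasI n).2 this, (hB.hasI n).2 (has_iso h this)⟩

lemma hasI_unique {a n m : ℕ} (ha : IndexSet L1 (KK G) a) (h1 : HasI a n) (h2 : HasI a m) :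
    m = n := by
  obtain ⟨A, ⟨n1, h⟩, hA⟩ := ha
  rw [hA.hasI, h.has_iff] at h1 h2
  rw [h1, h2]

lemma survI_of {a n k : ℕ} (ha : IndexSet L1 (KK G) a) (h1 : HasI a n) (h : ¬ Inf G n k) :
    SurvI a n k := by
  obtain ⟨A, ⟨n1, hb⟩, hA⟩ := ha
  rw [hA.hasI, hb.has_iff] at h1
  subst h1
  exact (hA.survI _ _).2 (hb.surv h)

lemma pg_isoProblem (hG : ComputablePred fun x : (ℕ × ℕ) × ℕ => G x.1.1 x.1.2 x.2) :
    Pg 3 (ℕ × ℕ) (IsoProblem L1 (KK G)) := by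
  refine Pg.congr (p := fun p => IndexSet L1 (KK G) p.1 ∧ IndexSet L1 (KK G) p.2 ∧
    (∃ n, HasI p.1 n ∧ HasI p.2 n) ∧ ∀ n k, HasI p.1 n → (SurvI p.1 n k ↔ SurvI p.2 n k)) ?_ ?_
  · refine Pg.and (Pg.upP ((pg_indexSet hG).comp (by fun_prop)))
      (Pg.and (Pg.upP ((pg_indexSet hG).comp (by fun_prop))) (Pg.and
        (Pg.upP (Sg.upP (Sg.ex (Sg.and ?_ ?_)))) (Pg.all (Pg.all (Pg.imp (Sg.up (Sg.up ?_))
          (Sg.iffP ?_ ?_))))))
    · exact sg_hasI (by fun_prop) (by fun_prop)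
    · exact sg_hasI (by fun_prop) (by fun_prop)
    · exact sg_hasI (by fun_prop) (by fun_prop)
    · exact sg_survI (by fun_prop) (by fun_prop) (by fun_prop)
    · exact sg_survI (by fun_prop) (by fun_prop) (by fun_prop)
  · rintro ⟨a, b⟩
    constructor
    · rintro ⟨ha, hb, ⟨n, h1, h2⟩, h⟩
      exact (isoProblem_iff_of ha hb h1 h2).2 fun k => h n k h1
    · intro h
      obtain ⟨ha, hb, n, h1, h2⟩ := isoProblem_valid h
      refine ⟨ha, hb, ⟨n, h1, h2⟩, fun m k hm => ?_⟩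
      obtain rfl := hasI_unique ha h1 hm
      exact (isoProblem_iff_of ha hb h1 h2).1 h k

/-! ### indices of uniformly computable structures -/

def d1 (m : ℕ) : ℕ := m.unpair.2.unpair.1
def d2 (m : ℕ) : ℕ := m.unpair.2.unpair.2
def d3 (m : ℕ) : ℕ := (m.unpair.2.unpair.2 - 1).unpair.1

lemma dg_iff {U : ℕ → Prop} {P N : ℕ → ℕ → Prop} (m : ℕ) : Dg U P N m ↔
    (U (d1 m) ∧ m = c0 (d1 m)) ∨ (U (d1 m) ∧ U (d2 m) ∧ d1 m ≠ d2 m ∧ m = c1 (d1 m) (d2 m)) ∨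
    (U (d3 m) ∧ P (d1 m) (d3 m) ∧ m = c2 (d1 m) (d3 m)) ∨
    (U (d3 m) ∧ N (d1 m) (d3 m) ∧ m = c3 (d1 m) (d3 m)) := by
  unfold Dg
  refine or_congr ?_ (or_congr ?_ (or_congr ?_ ?_))
  · exact ⟨by rintro ⟨x, h, rfl⟩; simpa [d1, c0] using h, fun h => ⟨_, h⟩⟩
  · exact ⟨by rintro ⟨x, y, h1, h2, h3, rfl⟩; simp [d1, d2, c1, h1, h2, h3], fun h => ⟨_, _, h⟩⟩
  · exact ⟨by rintro ⟨x, y, h1, h2, rfl⟩; simp [d1, d3, c2, h1, h2], fun h => ⟨_, _, h⟩⟩
  · exact ⟨by rintro ⟨x, y, h1, h2, rfl⟩; simp [d1, d3, c3, h1, h2], fun h => ⟨_, _, h⟩⟩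

lemma exists_index (hG : ComputablePred fun x : (ℕ × ℕ) × ℕ => G x.1.1 x.1.2 x.2)
    (P : ℕ → ℕ → ℕ → Prop) (hP : ComputablePred fun x : (ℕ × ℕ) × ℕ => P x.1.1 x.1.2 x.2) :
    ∃ f : ℕ → ℕ, Computable f ∧ ∀ n, IsIndex L1 (f n) (mk G n (P n)) := by
  classical
  have hU : ∀ {α : Type} [Primcodable α] {n x : α → ℕ}, Computable n → Computable x →
      ComputablePred fun a => UU G (n a) (x a) := fun hn hx =>
    cp_or (cp_eq (by fun_prop) (by fun_prop)) (cpG hG hn (by fun_prop) (by fun_prop))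
  have h1 : Computable d1 := by unfold d1; fun_prop
  have h2 : Computable d2 := by unfold d2; fun_prop
  have h3 : Computable d3 := by unfold d3; fun_prop
  have hD : ComputablePred fun z : ℕ => z.unpair.2 ∈ diagram L1 (mk G z.unpair.1 (P z.unpair.1)) := by
    simp only [mem_diagram, dg_iff, mk_R, mk_U]
    refine cp_or (cp_and (hU ?_ ?_) (cp_eq ?_ ?_)) (cp_or (cp_and (hU ?_ ?_) (cp_and (hU ?_ ?_)
      (cp_and (cp_eq ?_ ?_).not (cp_eq ?_ ?_)))) (cp_or (cp_and (hU ?_ ?_) (cp_and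
        (cpG hP ?_ ?_ ?_) (cp_eq ?_ ?_))) (cp_and (hU ?_ ?_) (cp_and (cpG hP ?_ ?_ ?_).not
        (cp_eq ?_ ?_))))) <;> fun_prop
  have hf : Computable fun z : ℕ =>
      cond (decide (z.unpair.2 ∈ diagram L1 (mk G z.unpair.1 (P z.unpair.1)))) 1 0 :=
    Computable.cond hD.decide (Computable.const 1) (Computable.const 0)
  obtain ⟨c, hc⟩ := exists_code.1 (Partrec.nat_iff.1 hf.partrec)
  refine ⟨fun n => Encodable.encode (curry c n),
    Computable.encode.comp (primrec₂_curry.to_comp.comp (Computable.const c) Computable.id),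
    fun n m => ?_⟩
  simp only [Denumerable.ofNat_encode, eval_curry, hc]
  constructor
  · intro h; simp [h]
  · intro h; simp [h]

lemma exists_reduction (hG : ComputablePred fun x : (ℕ × ℕ) × ℕ => G x.1.1 x.1.2 x.2) :
    ∃ f : ℕ → ℕ × ℕ, Computable f ∧ ∀ n, IsoProblem L1 (KK G) (f n) ↔ ∀ k, ¬ Inf G n k := by
  obtain ⟨f, hf, hA⟩ := exists_index hG (PA G) (by
    unfold PA
    refine cp_or (cp_eq ?_ ?_) (cp_and (cp_eq ?_ ?_) (cp_and (cpG hG ?_ ?_ ?_) (cp_and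
      (cp_le ?_ ?_) (cp_ball ?_ (cp_and (cp_le ?_ ?_) (cpG hG ?_ ?_ ?_)).not)))) <;> fun_prop)
  obtain ⟨g, hg, hB⟩ := exists_index hG PB (by
    unfold PB
    refine cp_or (cp_eq ?_ ?_) (cp_and (cp_eq ?_ ?_) (cp_eq ?_ ?_)) <;> fun_prop)
  refine ⟨fun n => (f n, g n), hf.pair hg, fun n => ?_⟩
  have hna : HasI (f n) n := ((hA n).hasI n).2 (((blk_A n).has_iff n).2 rfl)
  have hnb : HasI (g n) n := ((hB n).hasI n).2 (((blk_B n).has_iff n).2 rfl)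
  rw [isoProblem_iff_of ⟨_, ⟨n, blk_A n⟩, hA n⟩ ⟨_, ⟨n, blk_B n⟩, hB n⟩ hna hnb, ← iso_AB,
    (blk_A n).iso_iff (blk_B n)]
  simp only [(hA n).survI, (hB n).survI]

end Pool.Agent.H912Z.IsoP
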