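import Pool.Agent.H912Z.IsoIdx

namespace Pool.Agent.H912Z.IsoP

open Nat.Partrec (Code)
open Nat.Partrec.Code

/-- the blocks restrained by the requirements of priority at most `i` -/
def Res (i n : ℕ) : Prop :=
  ∃ e < i + 1, ∃ σ < 2 ^ e, ∃ c, Ev e (Nat.pair e σ) c ∧ HasI c.unpair.1 n ∧
    ∀ m, HasI c.unpair.1 m → m = n

lemma sg_res : Sg 2 (ℕ × ℕ) fun x => Res x.1 x.2 := by
  unfold Res
  refine Sg.bex (by fun_prop) (Sg.bex (by fun_prop) (Sg.ex (Sg.and (Sg.up ?_) (Sg.and (Sg.up ?_)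
    (Pg.up (Pg.all (Pg.imp ?_ ?_)))))))
  · exact sg_ev (by fun_prop) (by fun_prop) (by fun_prop)
  · exact sg_hasI (by fun_prop) (by fun_prop)
  · exact sg_hasI (by fun_prop) (by fun_prop)
  · exact pg_of_cp (cp_eq (by fun_prop) (by fun_prop))

lemma res_finite (i : ℕ) : {n | Res i n}.Finite := by
  have : {n | Res i n} = ⋃ e ∈ Set.Iio (i + 1), ⋃ σ ∈ Set.Iio (2 ^ e),
      {n | ∃ c, Ev e (Nat.pair e σ) c ∧ HasI c.unpair.1 n ∧ ∀ m, HasI c.unpair.1 m → m = n} := by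
    ext n; simp [Res]
  rw [this]
  refine (Set.finite_Iio _).biUnion fun e _ => (Set.finite_Iio _).biUnion fun σ _ => ?_
  refine Set.Subsingleton.finite ?_
  rintro n ⟨c, h1, h2, _⟩ n' ⟨c', h1', _, h3'⟩
  obtain rfl := h1.unique h1'
  exact h3' n h2

def Cand (i t : ℕ) : Prop := t.unpair.1.unpair.1 = i ∧ ¬ Res i t.unpair.1 ∧ ¬ Univ 1 i t

lemma pg_cand : Pg 2 (ℕ × ℕ) fun x => Cand x.1 x.2 :=
  Pg.and (pg_of_cp (cp_eq (by fun_prop) (by fun_prop)))
    (Pg.and (Sg.not (sg_res.comp (f := fun x : ℕ × ℕ => (x.1, x.2.unpair.1)) (by fun_prop)))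
      (Sg.not (sg_univ 1)))

lemma exists_wit : ∃ Wit : ℕ → ℕ → Prop, (Pg 2 (ℕ × ℕ) fun x => Wit x.1 x.2) ∧
    (∀ n k m k', Wit n k → Wit m k' → n.unpair.1 = m.unpair.1 → n = m ∧ k = k') ∧
    (∀ n k, Wit n k → ¬ Res n.unpair.1 n ∧ Univ 2 n.unpair.1 n) ∧
    ∀ n, ¬ Res n.unpair.1 n → Univ 2 n.unpair.1 n → ∃ m k, Wit m k ∧ m.unpair.1 = n.unpair.1 := by
  classical
  obtain ⟨W, hW, e, hu⟩ := exists_unique_witness (α := ℕ)
    (p := fun t => Cand t.unpair.1.unpair.1 t) (q := fun t => ∀ t' < t, ¬ Cand t.unpair.1.unpair.1 t')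
    (pg_cand.comp (f := fun t : ℕ => (t.unpair.1.unpair.1, t)) (by fun_prop))
    (Sg.ball (by fun_prop) (Pg.not (pg_cand.comp
      (f := fun x : ℕ × ℕ => (x.1.unpair.1.unpair.1, x.2)) (by fun_prop))))
  refine ⟨fun n k => W (Nat.pair n k.unpair.1) k.unpair.2,
    hW.comp (f := fun x : ℕ × ℕ => (Nat.pair x.1 x.2.unpair.1, x.2.unpair.2)) (by fun_prop),
    ?_, ?_, ?_⟩
  · intro n k m k' h1 h2 hc
    have a1 := (e _).2 ⟨_, h1⟩
    have a2 := (e _).2 ⟨_, h2⟩
    simp only [Nat.unpair_pair] at a1 a2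
    have ht : Nat.pair n k.unpair.1 = Nat.pair m k'.unpair.1 := by
      rcases lt_trichotomy (Nat.pair n k.unpair.1) (Nat.pair m k'.unpair.1) with h | h | h
      · exact absurd (hc ▸ a1.1) (a2.2 _ h)
      · exact h
      · exact absurd (hc ▸ a2.1) (a1.2 _ h)
    have h3 := hu _ _ _ h1 (ht ▸ h2)
    rw [Nat.pair_eq_pair] at ht
    exact ⟨ht.1, unpair_ext ht.2 h3⟩
  · intro n k h
    have a1 := ((e _).2 ⟨_, h⟩).1
    simp only [Cand, Nat.unpair_pair] at a1
    exact ⟨a1.2.1, _, a1.2.2⟩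
  · rintro n h1 ⟨y, hy⟩
    have hex : ∃ t, Cand n.unpair.1 t := ⟨Nat.pair n y, by simpa [Cand] using ⟨h1, hy⟩⟩
    have h2 := Nat.find_spec hex
    obtain ⟨u, hu⟩ := (e (Nat.find hex)).1 ⟨by rw [h2.1]; exact h2,
      fun t' ht' => by rw [h2.1]; exact Nat.find_min hex ht'⟩
    exact ⟨(Nat.find hex).unpair.1, Nat.pair (Nat.find hex).unpair.2 u, by simpa using hu, h2.1⟩

theorem main : ∃ (L : Lang) (K : Str → Prop), (∀ A B, K A → Iso L A B → K B) ∧
    IsPi2 (IndexSet L K) ∧ IsPi3 (IsoProblem L K) ∧ ¬ IsSigma3 (IsoProblem L K) ∧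
    ¬ ∀ X : ℕ → Prop, IsPi3 X →
      ∃ f : ℕ → ℕ × ℕ, Computable f ∧ ∀ x, X x ↔ IsoProblem L K (f x) := by
  classical
  obtain ⟨Wit, hW, huniq, hres, hact⟩ := exists_wit
  obtain ⟨G0, hG, hinf⟩ := exists_inf_often hW
  let G : ℕ → ℕ → ℕ → Prop := fun n k s => G0 (n, k) s
  have hG' : ComputablePred fun x : (ℕ × ℕ) × ℕ => G x.1.1 x.1.2 x.2 := hG
  have hI : ∀ n k, Inf G n k ↔ Wit n k := fun n k => (hinf (n, k)).symm
  refine ⟨L1, KK G, fun A B => KK_iso, isPi2_iff.2 (pg_indexSet hG'),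
    isPi3_iff.2 (pg_isoProblem hG'), fun h => ?_, fun h => ?_⟩
  · obtain ⟨f, hf, hr⟩ := exists_reduction hG'
    obtain ⟨i, hi⟩ := univ_complete 2 ((isSigma3_iff.1 h).comp hf)
    simp only [hr, hI] at hi
    -- in column `i` there is an element that is not restrained and not chosen
    have hfin : {n | n.unpair.1 = i ∧ ∃ k, Wit n k}.Finite := by
      refine Set.Subsingleton.finite ?_
      rintro n ⟨h1, k, hk⟩ m ⟨h2, k', hk'⟩
      exact (huniq _ _ _ _ hk hk' (h1.trans h2.symm)).1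
    have hcol : (Set.range (Nat.pair i)).Infinite :=
      Set.infinite_range_of_injective fun a b h => (Nat.pair_eq_pair.1 h).2
    obtain ⟨_, ⟨j, rfl⟩, hn⟩ := (hcol.diff ((res_finite i).union hfin)).nonempty
    simp only [Set.mem_union, Set.mem_setOf_eq, Nat.unpair_pair, true_and, not_or, not_exists] at hn
    obtain ⟨m, k, hk, hm⟩ := hact (Nat.pair i j) (by simpa using hn.1)
      (by simpa using (hi _).1 hn.2)
    simp only [Nat.unpair_pair] at hm
    exact (hi m).2 (hm ▸ (hres m k hk).2) k hk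
  · let Y : ℕ → Prop := fun x => ∃ c n, Ev x.unpair.1 x c ∧ IndexSet L1 (KK G) c.unpair.1 ∧
      IndexSet L1 (KK G) c.unpair.2 ∧ HasI c.unpair.1 n ∧ HasI c.unpair.2 n ∧
      ((x.unpair.1 ≤ n.unpair.1 ∨ ¬ x.unpair.2 / 2 ^ n.unpair.1 % 2 = 1) ∨
        ∃ m k, Wit m k ∧ m.unpair.1 = n.unpair.1 ∧
          (¬ m = n ∨ (SurvI c.unpair.1 n k ↔ SurvI c.unpair.2 n k)))
    have hY : Sg 3 ℕ Y := by
      refine Sg.ex (Sg.ex (Sg.and (Sg.up (Sg.up ?_)) (Sg.and (Pg.up ?_) (Sg.and (Pg.up ?_)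
        (Sg.and (Sg.up (Sg.up ?_)) (Sg.and (Sg.up (Sg.up ?_)) (Sg.or ?_ (Sg.ex (Sg.ex
          (Sg.and (Pg.up ?_) (Sg.and ?_ (Sg.or ?_ (Sg.iffS ?_ ?_)))))))))))))
      · exact sg_ev (by fun_prop) (by fun_prop) (by fun_prop)
      · exact (pg_indexSet hG').comp (by fun_prop)
      · exact (pg_indexSet hG').comp (by fun_prop)
      · exact sg_hasI (by fun_prop) (by fun_prop)
      · exact sg_hasI (by fun_prop) (by fun_prop)
      · exact sg_of_cp (cp_or (cp_le (by fun_prop) (by fun_prop))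
          (cp_eq (by fun_prop) (by fun_prop)).not)
      · exact hW.comp (f := fun z : ((((ℕ × ℕ) × ℕ) × ℕ) × ℕ) => (z.1.2, z.2)) (by fun_prop)
      · exact sg_of_cp (cp_eq (by fun_prop) (by fun_prop))
      · exact sg_of_cp (cp_eq (by fun_prop) (by fun_prop)).not
      · exact sg_survI (by fun_prop) (by fun_prop) (by fun_prop)
      · exact sg_survI (by fun_prop) (by fun_prop) (by fun_prop)
    obtain ⟨f, hf, hr⟩ := h (fun x => ¬ Y x) (isPi3_iff.2 hY.not)
    obtain ⟨e, he⟩ := exists_code_of_partrec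
      (f := fun x => Part.some (Nat.pair (f x).1 (f x).2))
      (Computable.partrec (f := fun x => Nat.pair (f x).1 (f x).2) (by fun_prop))
    let σ := Nat.ofBits (n := e) fun i => decide (∃ m k, Wit m k ∧ m.unpair.1 = i)
    have hσ : σ < 2 ^ e := Nat.ofBits_lt_two_pow _
    have hbit : ∀ i < e, (σ / 2 ^ i % 2 = 1 ↔ ∃ m k, Wit m k ∧ m.unpair.1 = i) := fun i hi => by
      have := Nat.testBit_ofBits_lt (fun i : Fin e => decide (∃ m k, Wit m k ∧ m.unpair.1 = i)) i hi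
      rw [Nat.testBit_eq_decide_div_mod_eq] at this
      exact decide_eq_decide.1 this
    have hev : ∀ x c, Ev e x c ↔ c = Nat.pair (f x).1 (f x).2 := fun x c => by
      simp [Ev, he]
    set x := Nat.pair e σ with hx
    have key : ∀ n, IndexSet L1 (KK G) (f x).1 → IndexSet L1 (KK G) (f x).2 → HasI (f x).1 n →
        HasI (f x).2 n → (IsoProblem L1 (KK G) (f x) ↔
          ((e ≤ n.unpair.1 ∨ ¬ σ / 2 ^ n.unpair.1 % 2 = 1) ∨ ∃ m k, Wit m k ∧
            m.unpair.1 = n.unpair.1 ∧ (¬ m = n ∨ (SurvI (f x).1 n k ↔ SurvI (f x).2 n k)))) := by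
      intro n ha hb h1 h2
      rw [show f x = ((f x).1, (f x).2) from rfl, isoProblem_iff_of ha hb h1 h2]
      have hs : ∀ k, ¬ Wit n k → (SurvI (f x).1 n k ↔ SurvI (f x).2 n k) := fun k hk =>
        iff_of_true (survI_of ha h1 (by rwa [hI])) (survI_of hb h2 (by rwa [hI]))
      by_cases hn : ∃ k, Wit n k
      · obtain ⟨k0, hk0⟩ := hn
        have hlt : n.unpair.1 < e := by
          by_contra hc
          refine (hres n k0 hk0).1 ⟨e, by omega, σ, hσ, _, (hev _ _).2 rfl, ?_, ?_⟩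
          · simpa using h1
          · intro m hm
            exact hasI_unique ha h1 (by simpa using hm)
        constructor
        · intro h
          exact Or.inr ⟨n, k0, hk0, rfl, Or.inr (h k0)⟩
        · rintro ((h | h) | ⟨m, k, hk, hm, h⟩)
          · omega
          · exact absurd ((hbit _ hlt).2 ⟨n, k0, hk0, rfl⟩) h
          · obtain ⟨rfl, rfl⟩ := huniq _ _ _ _ hk hk0 hm
            intro k'
            by_cases hk' : Wit m k'
            · obtain ⟨_, rfl⟩ := huniq _ _ _ _ hk hk' rfl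
              exact h.resolve_left (by simp)
            · exact hs k' hk'
      · refine iff_of_true (fun k => hs k fun hk => hn ⟨k, hk⟩) ?_
        by_cases hlt : n.unpair.1 < e
        · by_cases hb : σ / 2 ^ n.unpair.1 % 2 = 1
          · obtain ⟨m, k, hk, hm⟩ := (hbit _ hlt).1 hb
            exact Or.inr ⟨m, k, hk, hm, Or.inl fun h => hn ⟨k, h ▸ hk⟩⟩
          · exact Or.inl (Or.inr hb)
        · exact Or.inl (Or.inl (by omega))
    have final : Y x ↔ IsoProblem L1 (KK G) (f x) := by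
      constructor
      · rintro ⟨c, n, h0, ha, hb, h1, h2, h3⟩
        simp only [hx, Nat.unpair_pair] at h0 h3
        rw [hev] at h0
        subst h0
        simp only [Nat.unpair_pair] at ha hb h1 h2 h3
        exact (key n ha hb h1 h2).2 h3
      · intro h
        obtain ⟨ha, hb, n, h1, h2⟩ := isoProblem_valid (a := (f x).1) (b := (f x).2) h
        refine ⟨Nat.pair (f x).1 (f x).2, n, ?_, ?_⟩
        · simp only [hx, Nat.unpair_pair]
          exact (hev _ _).2 rfl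
        · simp only [Nat.unpair_pair]
          refine ⟨ha, hb, h1, h2, ?_⟩
          have := (key n ha hb h1 h2).1 h
          simpa only [hx, Nat.unpair_pair] using this
    have := hr x
    rw [← final] at this
    exact not_iff_self this

end Pool.Agent.H912Z.IsoP
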