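import Pool.Agent.H912Z.IsoHier

namespace Pool.Agent.H912Z.IsoP

open Nat.Partrec (Code)
open Nat.Partrec.Code

/-- countably many unary predicates -/
def L1 : Lang := ⟨fun _ => true, fun _ => 1, Computable.const _, Computable.const _⟩

lemma tup_iff (A : Str) (i : ℕ) (xs : List ℕ) : Tup L1 A i xs ↔ ∃ x ∈ A.U, xs = [x] := by
  unfold Tup L1
  simp only [true_and, List.length_eq_one_iff]
  constructor
  · rintro ⟨⟨x, rfl⟩, h⟩
    exact ⟨x, h x (by simp), rfl⟩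
  · rintro ⟨x, hx, rfl⟩
    exact ⟨⟨x, rfl⟩, by simpa using hx⟩

def typ (A : Str) (x : ℕ) : Set ℕ := {i | A.R i [x]}

lemma iso_iff_bij (A B : Str) :
    Iso L1 A B ↔ ∃ h : ℕ → ℕ, Set.BijOn h A.U B.U ∧ ∀ x ∈ A.U, typ B (h x) = typ A x := by
  unfold Iso
  refine exists_congr fun h => and_congr_right fun _ => ?_
  constructor
  · intro H x hx
    ext i
    exact (H i [x] ((tup_iff _ _ _).2 ⟨x, hx, rfl⟩)).symm
  · intro H i xs ht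
    obtain ⟨x, hx, rfl⟩ := (tup_iff _ _ _).1 ht
    have := Set.ext_iff.1 (H x hx) i
    exact this.symm

lemma range_of_iso {A B : Str} (h : Iso L1 A B) : typ A '' A.U = typ B '' B.U := by
  obtain ⟨h, hb, ht⟩ := (iso_iff_bij A B).1 h
  rw [← hb.image_eq, Set.image_image]
  exact Set.image_congr fun x hx => (ht x hx).symm

lemma inj_of_iso {A B : Str} (h : Iso L1 A B) (hA : Set.InjOn (typ A) A.U) :
    Set.InjOn (typ B) B.U := by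
  obtain ⟨h, hb, ht⟩ := (iso_iff_bij A B).1 h
  intro x hx y hy e
  obtain ⟨x', hx', rfl⟩ := hb.surjOn hx
  obtain ⟨y', hy', rfl⟩ := hb.surjOn hy
  rw [ht _ hx', ht _ hy'] at e
  rw [hA hx' hy' e]

lemma iso_of_range {A B : Str} (hA : Set.InjOn (typ A) A.U) (hB : Set.InjOn (typ B) B.U)
    (h : typ A '' A.U = typ B '' B.U) : Iso L1 A B := by
  have : ∀ x, ∃ y, x ∈ A.U → y ∈ B.U ∧ typ B y = typ A x := fun x => by
    by_cases hx : x ∈ A.U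
    · obtain ⟨y, hy, e⟩ : typ A x ∈ typ B '' B.U := h ▸ ⟨x, hx, rfl⟩
      exact ⟨y, fun _ => ⟨hy, e⟩⟩
    · exact ⟨0, fun h => absurd h hx⟩
  choose f hf using this
  refine (iso_iff_bij A B).2 ⟨f, ⟨fun x hx => (hf x hx).1, fun x hx y hy e => ?_, fun y hy => ?_⟩,
    fun x hx => (hf x hx).2⟩
  · apply hA hx hy
    rw [← (hf x hx).2, ← (hf y hy).2, e]
  · obtain ⟨x, hx, e⟩ : typ B y ∈ typ A '' A.U := h.symm ▸ ⟨y, hy, rfl⟩
    exact ⟨x, hx, hB (hf x hx).1 hy (by rw [(hf x hx).2, e])⟩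

def t0 (n k : ℕ) : Set ℕ := {2 * Nat.pair n k}
def t1 (n k s : ℕ) : Set ℕ := {2 * Nat.pair n k, 2 * s + 1}

def Inf (G : ℕ → ℕ → ℕ → Prop) (n k : ℕ) : Prop := ∀ s0, ∃ s, s0 ≤ s ∧ G n k s

def RangeOK (G : ℕ → ℕ → ℕ → Prop) (n : ℕ) (T : Set (Set ℕ)) : Prop :=
  (∀ τ ∈ T, ∃ k, τ = t0 n k ∨ ∃ s, G n k s ∧ τ = t1 n k s) ∧ (∀ k s, G n k s → t1 n k s ∈ T) ∧
    ∀ k, ¬ Inf G n k → t0 n k ∈ T

def Blk (G : ℕ → ℕ → ℕ → Prop) (n : ℕ) (A : Str) : Prop :=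
  Set.InjOn (typ A) A.U ∧ RangeOK G n (typ A '' A.U)

def KK (G : ℕ → ℕ → ℕ → Prop) (A : Str) : Prop := ∃ n, Blk G n A

lemma KK_iso {G : ℕ → ℕ → ℕ → Prop} {A B : Str} (hA : KK G A) (h : Iso L1 A B) : KK G B := by
  obtain ⟨n, h1, h2⟩ := hA
  exact ⟨n, inj_of_iso h h1, range_of_iso h ▸ h2⟩

def Has (A : Str) (n : ℕ) : Prop := ∃ x k, x ∈ A.U ∧ A.R (2 * Nat.pair n k) [x]

def Surv (A : Str) (n k : ℕ) : Prop :=
  ∃ x, (x ∈ A.U ∧ A.R (2 * Nat.pair n k) [x]) ∧ ∀ s, ¬ (x ∈ A.U ∧ A.R (2 * s + 1) [x])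

lemma even_mem_t0 {j n k : ℕ} : 2 * j ∈ t0 n k ↔ j = Nat.pair n k := by
  simp [t0]
lemma even_mem_t1 {j n k s : ℕ} : 2 * j ∈ t1 n k s ↔ j = Nat.pair n k := by
  simp only [t1, Set.mem_insert_iff, Set.mem_singleton_iff]; omega
lemma odd_mem_t0 {r n k : ℕ} : 2 * r + 1 ∉ t0 n k := by
  simp only [t0, Set.mem_singleton_iff]; omega
lemma odd_mem_t1 {r n k s : ℕ} : 2 * r + 1 ∈ t1 n k s ↔ r = s := by
  simp only [t1, Set.mem_insert_iff, Set.mem_singleton_iff]; omega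

lemma set_ext_parity {S T : Set ℕ} (h0 : ∀ j, 2 * j ∈ S ↔ 2 * j ∈ T)
    (h1 : ∀ j, 2 * j + 1 ∈ S ↔ 2 * j + 1 ∈ T) : S = T := by
  ext i
  rcases Nat.even_or_odd' i with ⟨j, rfl | rfl⟩
  · exact h0 j
  · exact h1 j

variable {G : ℕ → ℕ → ℕ → Prop}

lemma Blk.even {n : ℕ} {A : Str} (h : Blk G n A) {x : ℕ} (hx : x ∈ A.U) :
    ∃ k, ∀ j, A.R (2 * j) [x] ↔ j = Nat.pair n k := by
  obtain ⟨k, hk | ⟨s, _, hk⟩⟩ := h.2.1 _ ⟨x, hx, rfl⟩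
  · exact ⟨k, fun j => by rw [← even_mem_t0, ← hk]; rfl⟩
  · exact ⟨k, fun j => by rw [← even_mem_t1 (s := s), ← hk]; rfl⟩

lemma Blk.has_iff {n : ℕ} {A : Str} (h : Blk G n A) (m : ℕ) : Has A m ↔ m = n := by
  constructor
  · rintro ⟨x, k, hx, hR⟩
    obtain ⟨k', hk⟩ := h.even hx
    exact (Nat.pair_eq_pair.1 ((hk _).1 hR)).1
  · rintro rfl
    obtain ⟨x, hx⟩ := A.ne
    obtain ⟨k, hk⟩ := h.even hx
    exact ⟨x, k, hx, (hk _).2 rfl⟩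

lemma Blk.surv_iff {n : ℕ} {A : Str} (h : Blk G n A) (m k : ℕ) :
    Surv A m k ↔ t0 m k ∈ typ A '' A.U := by
  constructor
  · rintro ⟨x, ⟨hx, hR⟩, hs⟩
    obtain ⟨k', hk⟩ := h.even hx
    refine ⟨x, hx, set_ext_parity (fun j => ?_) (fun j => ?_)⟩
    · rw [even_mem_t0, (hk _).1 hR]; exact hk j
    · exact iff_of_false (fun hc => hs j ⟨hx, hc⟩) odd_mem_t0
  · rintro ⟨x, hx, e⟩
    refine ⟨x, ⟨hx, ?_⟩, fun s hs => ?_⟩
    · show _ ∈ typ A x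
      rw [e, even_mem_t0]
    · have : 2 * s + 1 ∈ typ A x := hs.2
      rw [e] at this
      exact odd_mem_t0 this

lemma Blk.iso_iff {n : ℕ} {A B : Str} (hA : Blk G n A) (hB : Blk G n B) :
    Iso L1 A B ↔ ∀ k, Surv A n k ↔ Surv B n k := by
  constructor
  · intro h k
    rw [hA.surv_iff, hB.surv_iff, range_of_iso h]
  · intro h
    refine iso_of_range hA.1 hB.1 (Set.Subset.antisymm (fun τ hτ => ?_) (fun τ hτ => ?_))
    · obtain ⟨k, rfl | ⟨s, hs, rfl⟩⟩ := hA.2.1 τ hτ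
      · exact (hB.surv_iff n k).1 ((h k).1 ((hA.surv_iff n k).2 hτ))
      · exact hB.2.2.1 k s hs
    · obtain ⟨k, rfl | ⟨s, hs, rfl⟩⟩ := hB.2.1 τ hτ
      · exact (hA.surv_iff n k).1 ((h k).2 ((hB.surv_iff n k).2 hτ))
      · exact hA.2.2.1 k s hs

lemma Blk.surv {n k : ℕ} {A : Str} (hA : Blk G n A) (h : ¬ Inf G n k) : Surv A n k :=
  (hA.surv_iff n k).2 (hA.2.2.2 k h)

lemma has_iso {A B : Str} (h : Iso L1 A B) {n : ℕ} (hA : Has A n) : Has B n := by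
  obtain ⟨x, k, hx, hR⟩ := hA
  obtain ⟨y, hy, e⟩ : typ A x ∈ typ B '' B.U := range_of_iso h ▸ ⟨x, hx, rfl⟩
  refine ⟨y, k, hy, ?_⟩
  show _ ∈ typ B y
  rw [e]; exact hR

/-- the `Π⁰₂` axioms; `U`, `P`, `N` are the universe, the positive and the negative facts -/
def Ax (G : ℕ → ℕ → ℕ → Prop) (n : ℕ) (U : ℕ → Prop) (P N : ℕ → ℕ → Prop) : Prop :=
  (∀ x y, U x → U y → x = y ∨ ∃ i, (P i x ∧ N i y) ∨ (N i x ∧ P i y)) ∧
  (∀ x, U x → ∃ k, P (2 * Nat.pair n k) x) ∧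
  (∀ x j j', P (2 * j) x → P (2 * j') x → j = j') ∧
  (∀ x s s', P (2 * s + 1) x → P (2 * s' + 1) x → s = s') ∧
  (∀ x k s, P (2 * Nat.pair n k) x → P (2 * s + 1) x → G n k s) ∧
  (∀ k s, G n k s → ∃ x, P (2 * Nat.pair n k) x ∧ P (2 * s + 1) x) ∧
  (∀ k s0, ∃ x, P (2 * Nat.pair n k) x ∧ ∀ s < s0, N (2 * s + 1) x)

lemma blk_iff_ax (n : ℕ) (A : Str) : Blk G n A ↔
    Ax G n (fun x => x ∈ A.U) (fun i x => x ∈ A.U ∧ A.R i [x]) (fun i x => x ∈ A.U ∧ ¬ A.R i [x]) := by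
  have mem : ∀ i x, A.R i [x] ↔ i ∈ typ A x := fun _ _ => Iff.rfl
  constructor
  · intro h
    refine ⟨fun x y hx hy => ?_, fun x hx => ?_, fun x j j' h1 h2 => ?_, fun x s s' h1 h2 => ?_,
      fun x k s h1 h2 => ?_, fun k s hs => ?_, fun k s0 => ?_⟩
    · by_contra hc
      push Not at hc
      refine hc.1 (h.1 hx hy ?_)
      ext i
      have := hc.2 i
      simp only [← mem]
      tauto
    · obtain ⟨k, hk⟩ := h.even hx
      exact ⟨k, hx, (hk _).2 rfl⟩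
    · obtain ⟨k, hk⟩ := h.even h1.1
      rw [(hk _).1 h1.2, (hk _).1 h2.2]
    · obtain ⟨k, hk | ⟨r, _, hk⟩⟩ := h.2.1 _ ⟨x, h1.1, rfl⟩
      · exact absurd (hk ▸ (mem _ _).1 h1.2) odd_mem_t0
      · have a1 := (mem _ _).1 h1.2
        have a2 := (mem _ _).1 h2.2
        rw [hk, odd_mem_t1] at a1 a2
        rw [a1, a2]
    · obtain ⟨k', hk | ⟨r, hr, hk⟩⟩ := h.2.1 _ ⟨x, h1.1, rfl⟩
      · exact absurd (hk ▸ (mem _ _).1 h2.2) odd_mem_t0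
      · have a1 := (mem _ _).1 h1.2
        have a2 := (mem _ _).1 h2.2
        rw [hk, even_mem_t1] at a1
        rw [hk, odd_mem_t1] at a2
        rw [a2, (Nat.pair_eq_pair.1 a1).2]
        exact hr
    · obtain ⟨x, hx, e⟩ := h.2.2.1 k s hs
      exact ⟨x, ⟨hx, by rw [mem, e, even_mem_t1]⟩, hx, by rw [mem, e, odd_mem_t1]⟩
    · by_cases hI : Inf G n k
      · obtain ⟨s, hs, hG⟩ := hI s0
        obtain ⟨x, hx, e⟩ := h.2.2.1 k s hG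
        refine ⟨x, ⟨hx, by rw [mem, e, even_mem_t1]⟩, fun r hr => ⟨hx, ?_⟩⟩
        rw [mem, e, odd_mem_t1]; omega
      · obtain ⟨x, hx, e⟩ := h.2.2.2 k hI
        refine ⟨x, ⟨hx, by rw [mem, e, even_mem_t0]⟩, fun r _ => ⟨hx, ?_⟩⟩
        rw [mem, e]; exact odd_mem_t0
  · rintro ⟨h1, h2, h3, h4, h5, h6, h7⟩
    have ev : ∀ x k, x ∈ A.U → A.R (2 * Nat.pair n k) [x] → ∀ j,
        (2 * j ∈ typ A x ↔ j = Nat.pair n k) := fun x k hx hk j =>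
      ⟨fun hj => h3 x _ _ ⟨hx, hj⟩ ⟨hx, hk⟩, fun e => e ▸ hk⟩
    have one : ∀ x k s, x ∈ A.U → A.R (2 * Nat.pair n k) [x] → A.R (2 * s + 1) [x] →
        typ A x = t1 n k s := fun x k s hx hk hs =>
      set_ext_parity (fun j => by rw [ev x k hx hk, even_mem_t1]) fun j => by
        rw [odd_mem_t1]
        exact ⟨fun hj => h4 x _ _ ⟨hx, hj⟩ ⟨hx, hs⟩, fun e => e ▸ hs⟩
    have zero : ∀ x k, x ∈ A.U → A.R (2 * Nat.pair n k) [x] → (∀ s, ¬ A.R (2 * s + 1) [x]) →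
        typ A x = t0 n k := fun x k hx hk hs =>
      set_ext_parity (fun j => by rw [ev x k hx hk, even_mem_t0]) fun j =>
        iff_of_false (hs j) odd_mem_t0
    refine ⟨fun x hx y hy e => ?_, ?_, fun k s hs => ?_, fun k hI => ?_⟩
    · rcases h1 x y hx hy with h | ⟨i, ⟨a, b⟩ | ⟨a, b⟩⟩
      · exact h
      · exact absurd ((mem _ _).2 (e ▸ (mem _ _).1 a.2)) b.2
      · exact absurd ((mem _ _).2 (e.symm ▸ (mem _ _).1 b.2)) a.2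
    · rintro _ ⟨x, hx, rfl⟩
      obtain ⟨k, _, hk⟩ := h2 x hx
      by_cases hs : ∃ s, A.R (2 * s + 1) [x]
      · obtain ⟨s, hs⟩ := hs
        exact ⟨k, Or.inr ⟨s, h5 x k s ⟨hx, hk⟩ ⟨hx, hs⟩, one x k s hx hk hs⟩⟩
      · exact ⟨k, Or.inl (zero x k hx hk (not_exists.1 hs))⟩
    · obtain ⟨x, ⟨hx, hk⟩, _, hs'⟩ := h6 k s hs
      exact ⟨x, hx, one x k s hx hk hs'⟩
    · unfold Inf at hI
      push Not at hI
      obtain ⟨s0, hs0⟩ := hI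
      obtain ⟨x, ⟨hx, hk⟩, hs⟩ := h7 k s0
      refine ⟨x, hx, zero x k hx hk fun s hc => ?_⟩
      rcases lt_or_ge s s0 with h | h
      · exact (hs s h).2 hc
      · exact hs0 s h (h5 x k s ⟨hx, hk⟩ ⟨hx, hc⟩)

/-! ### the two members of a block -/

def UU (G : ℕ → ℕ → ℕ → Prop) (n x : ℕ) : Prop :=
  x.unpair.2 = 0 ∨ G n x.unpair.1 (x.unpair.2 - 1)

def PA (G : ℕ → ℕ → ℕ → Prop) (n i x : ℕ) : Prop :=
  i = 2 * Nat.pair n x.unpair.1 ∨ (i % 2 = 1 ∧ G n x.unpair.1 (i / 2) ∧ x.unpair.2 ≤ i / 2 ∧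
    ∀ r < i / 2, ¬ (x.unpair.2 ≤ r ∧ G n x.unpair.1 r))

def PB (n i x : ℕ) : Prop :=
  i = 2 * Nat.pair n x.unpair.1 ∨ (i % 2 = 1 ∧ x.unpair.2 = i / 2 + 1)

def mk (G : ℕ → ℕ → ℕ → Prop) (n : ℕ) (P : ℕ → ℕ → Prop) : Str :=
  ⟨{x | UU G n x}, ⟨Nat.pair 0 0, Or.inl (by simp)⟩, fun i xs => P i (xs.getD 0 0)⟩

lemma mk_R (n : ℕ) (P : ℕ → ℕ → Prop) (i x : ℕ) : (mk G n P).R i [x] ↔ P i x := by simp [mk]
lemma mk_U (n : ℕ) (P : ℕ → ℕ → Prop) (x : ℕ) : x ∈ (mk G n P).U ↔ UU G n x := Iff.rfl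

lemma PA_even {n j x : ℕ} : PA G n (2 * j) x ↔ j = Nat.pair n x.unpair.1 := by
  unfold PA
  constructor
  · rintro (h | h) <;> omega
  · intro h; left; omega
lemma PA_odd {n s x : ℕ} : PA G n (2 * s + 1) x ↔ G n x.unpair.1 s ∧ x.unpair.2 ≤ s ∧
    ∀ r < s, ¬ (x.unpair.2 ≤ r ∧ G n x.unpair.1 r) := by
  unfold PA
  have e : (2 * s + 1) / 2 = s := by omega
  rw [e]
  constructor
  · rintro (h | h)
    · omega
    · exact h.2
  · intro h; right; exact ⟨by omega, h⟩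
lemma PB_even {n j x : ℕ} : PB n (2 * j) x ↔ j = Nat.pair n x.unpair.1 := by
  unfold PB; omega
lemma PB_odd {n s x : ℕ} : PB n (2 * s + 1) x ↔ x.unpair.2 = s + 1 := by
  unfold PB; omega

lemma unpair_ext {x y : ℕ} (h1 : x.unpair.1 = y.unpair.1) (h2 : x.unpair.2 = y.unpair.2) :
    x = y := by
  rw [← Nat.pair_unpair x, ← Nat.pair_unpair y, h1, h2]

lemma blk_B (n : ℕ) : Blk G n (mk G n (PB n)) := by
  rw [blk_iff_ax]
  simp only [Ax, mk_R, mk_U, PB_even, PB_odd]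
  refine ⟨fun x y hx hy => ?_, fun x hx => ⟨_, hx, rfl⟩, fun x j j' h1 h2 => by rw [h1.2, h2.2],
    fun x s s' h1 h2 => by omega, fun x k s h1 h2 => ?_, fun k s hs => ?_, fun k s0 => ?_⟩
  · by_cases h1 : x.unpair.1 = y.unpair.1
    · by_cases h2 : x.unpair.2 = y.unpair.2
      · exact Or.inl (unpair_ext h1 h2)
      · right
        rcases Nat.eq_zero_or_pos x.unpair.2 with h | h
        · exact ⟨2 * (y.unpair.2 - 1) + 1, Or.inr ⟨⟨hx, by rw [PB_odd]; omega⟩, hy,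
            by rw [PB_odd]; omega⟩⟩
        · exact ⟨2 * (x.unpair.2 - 1) + 1, Or.inl ⟨⟨hx, by rw [PB_odd]; omega⟩, hy,
            by rw [PB_odd]; omega⟩⟩
    · exact Or.inr ⟨2 * Nat.pair n x.unpair.1, Or.inl ⟨⟨hx, by rw [PB_even]⟩, hy,
        by rw [PB_even, Nat.pair_eq_pair]; tauto⟩⟩
  · rcases h1.1 with h | h
    · omega
    · rw [(Nat.pair_eq_pair.1 h1.2).2]
      simpa [h2.2] using h
  · have : UU G n (Nat.pair k (s + 1)) := Or.inr (by simpa using hs)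
    exact ⟨Nat.pair k (s + 1), ⟨this, by simp⟩, this, by simp⟩
  · have : UU G n (Nat.pair k 0) := Or.inl (by simp)
    exact ⟨Nat.pair k 0, ⟨this, by simp⟩, fun s _ => ⟨this, by simp⟩⟩

lemma surv_B (n k : ℕ) : Surv (mk G n (PB n)) n k := by
  have : UU G n (Nat.pair k 0) := Or.inl (by simp)
  refine ⟨Nat.pair k 0, ⟨this, by simp [mk_R, PB_even]⟩, fun s hs => ?_⟩
  simpa [mk_R, PB_odd] using hs.2

lemma exists_last (n k s : ℕ) : ∃ j ≤ s, UU G n (Nat.pair k j) ∧ ∀ r < s, ¬ (j ≤ r ∧ G n k r) := by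
  classical
  refine ⟨Nat.findGreatest (fun j => UU G n (Nat.pair k j)) s, Nat.findGreatest_le s,
    Nat.findGreatest_spec (P := fun j => UU G n (Nat.pair k j)) (Nat.zero_le s)
      (Or.inl (by simp)), fun r hr h => ?_⟩
  have := Nat.le_findGreatest (P := fun j => UU G n (Nat.pair k j)) (m := r + 1) (n := s) hr
    (Or.inr (by simpa using h.2))
  omega

lemma exists_stamp {n x r : ℕ} (h1 : x.unpair.2 ≤ r) (h2 : G n x.unpair.1 r) :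
    ∃ s ≤ r, PA G n (2 * s + 1) x := by
  classical
  have hex : ∃ s, x.unpair.2 ≤ s ∧ G n x.unpair.1 s := ⟨r, h1, h2⟩
  exact ⟨Nat.find hex, Nat.find_min' hex ⟨h1, h2⟩,
    PA_odd.2 ⟨(Nat.find_spec hex).2, (Nat.find_spec hex).1, fun t ht => Nat.find_min hex ht⟩⟩

lemma blk_A (n : ℕ) : Blk G n (mk G n (PA G n)) := by
  rw [blk_iff_ax]
  simp only [Ax, mk_R, mk_U, PA_even]
  have key : ∀ x y, UU G n y → x.unpair.1 = y.unpair.1 → x.unpair.2 < y.unpair.2 →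
      ∃ i, PA G n i x ∧ ¬ PA G n i y := by
    intro x y hy h1 h2
    rcases hy with h | h
    · omega
    · obtain ⟨s, hs, hP⟩ := exists_stamp (G := G) (n := n) (x := x) (r := y.unpair.2 - 1)
        (by omega) (h1 ▸ h)
      refine ⟨_, hP, fun hc => ?_⟩
      have := (PA_odd.1 hc).2.1
      omega
  refine ⟨fun x y hx hy => ?_, fun x hx => ⟨_, hx, rfl⟩, fun x j j' h1 h2 => by rw [h1.2, h2.2],
    fun x s s' h1 h2 => ?_, fun x k s h1 h2 => ?_, fun k s hs => ?_, fun k s0 => ?_⟩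
  · by_cases h1 : x.unpair.1 = y.unpair.1
    · rcases lt_trichotomy x.unpair.2 y.unpair.2 with h | h | h
      · obtain ⟨i, a, b⟩ := key x y hy h1 h
        exact Or.inr ⟨i, Or.inl ⟨⟨hx, a⟩, hy, b⟩⟩
      · exact Or.inl (unpair_ext h1 h)
      · obtain ⟨i, a, b⟩ := key y x hx h1.symm h
        exact Or.inr ⟨i, Or.inr ⟨⟨hx, b⟩, hy, a⟩⟩
    · exact Or.inr ⟨2 * Nat.pair n x.unpair.1, Or.inl ⟨⟨hx, by rw [PA_even]⟩, hy,
        by rw [PA_even, Nat.pair_eq_pair]; tauto⟩⟩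
  · obtain ⟨a1, a2, a3⟩ := PA_odd.1 h1.2
    obtain ⟨b1, b2, b3⟩ := PA_odd.1 h2.2
    rcases lt_trichotomy s s' with h | h | h
    · exact absurd ⟨a2, a1⟩ (b3 s h)
    · exact h
    · exact absurd ⟨b2, b1⟩ (a3 s' h)
  · rw [(Nat.pair_eq_pair.1 h1.2).2]
    exact (PA_odd.1 h2.2).1
  · obtain ⟨j, hj, hU, hr⟩ := exists_last (G := G) n k s
    exact ⟨Nat.pair k j, ⟨hU, by simp⟩, hU, PA_odd.2 (by simpa using ⟨hs, hj, by simpa using hr⟩)⟩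
  · obtain ⟨j, hj, hU, hr⟩ := exists_last (G := G) n k s0
    refine ⟨Nat.pair k j, ⟨hU, by simp⟩, fun s hs => ⟨hU, fun hc => ?_⟩⟩
    have := PA_odd.1 hc
    simp only [Nat.unpair_pair] at this
    exact hr s hs ⟨this.2.1, this.1⟩

lemma not_surv_A {n k : ℕ} (h : Inf G n k) : ¬ Surv (mk G n (PA G n)) n k := by
  rintro ⟨x, ⟨hx, hk⟩, hs⟩
  rw [mk_R, PA_even] at hk
  obtain ⟨r, hr, hG⟩ := h x.unpair.2
  obtain ⟨s, _, hP⟩ := exists_stamp (G := G) (n := n) hr ((Nat.pair_eq_pair.1 hk).2 ▸ hG)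
  exact hs s ⟨hx, (mk_R _ _ _ _).2 hP⟩

lemma iso_AB (n : ℕ) : Iso L1 (mk G n (PA G n)) (mk G n (PB n)) ↔ ∀ k, ¬ Inf G n k := by
  rw [(blk_A n).iso_iff (blk_B n)]
  constructor
  · intro h k hI
    exact not_surv_A hI ((h k).2 (surv_B n k))
  · intro h k
    exact iff_of_true ((blk_A n).surv (h k)) (surv_B n k)

end Pool.Agent.H912Z.IsoP
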